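import Mathlib
import Pool.Agent.Run7.h462.BPD.Stm
import Pool.Agent.N792.Defs2

/-!
# Project HP (helper545): primes `a m² + b m + c` for a positive proportion of the pairs `|b|, |c| ≤ H`, lengths up to `H^(4-ε)`

Statements, uniform in the linear coefficient `b`, `b² ≤ Λ C`, after the project BP of helper757 (`a = 1`, `b = 0`).
-/

set_option autoImplicit false

namespace Run7.h545.HP

open Finset Filter Topology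
open Pool.Agent.N792 (fv Vc V1)

/-- the number of the `1 ≤ n ≤ N` for which `a n² + b n + c` is a prime -/
def PP (a b c : ℤ) (N : ℕ) : ℕ := #((Icc 1 N).filter (fun n : ℕ => (fv a b c n).toNat.Prime))

/-- **FM**: the first moment, lower bound, uniformly in `b` (from TRI). Proof: as `Run7/h994/BP/FM.lean`. For a prime `v` let
`y` be the positive root of `a y² + b y = v`, `y = √(v/a + b²/(4a²)) - b/(2a)`. If the fractional part `φ` of `y` satisfies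
`0 < φ ≤ C / √(b² + 4 a v)` then `n = ⌊y⌋` gives `v = a n² + b n + c`, `1 ≤ c ≤ C`. In a cell `X < v ≤ X'` one has
`y = √(v/a) + t + e(v)` with `t` fixed and `0 ≤ e(v) ≤ (small) · C / √X`. -/
def S_FM (a : ℤ) (Λ : ℝ) : Prop := ∀ ε η : ℝ, 0 < ε → 0 < η → ∃ N₀ : ℕ, ∀ N : ℕ, N₀ ≤ N → ∀ b : ℤ, ∀ C : ℕ,
  (b : ℝ) ^ 2 ≤ Λ * C → (N : ℝ) ^ (1 / 2 + ε) ≤ C → (C : ℝ) ≤ (N : ℝ) ^ (9 / 10 : ℝ) →
  (1 - η) * (C * N / (2 * Real.log N)) ≤ ∑ c ∈ Icc 1 C, (PP a b (c : ℕ) N : ℝ)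

/-- **UP**: pointwise upper bound with the sieve product, uniformly in `b` and `c` (adapt `Run7/h136/BP/UP.lean`,
`Pool.Agent.N791.U.fl_polyU` instead of `fl_poly`). -/
def S_UP (a : ℤ) (Λ : ℝ) : Prop := ∃ K : ℝ, 1 ≤ K ∧ ∃ κ : ℝ, 0 < κ ∧ κ ≤ 1 / 10 ∧ ∃ N₀ : ℕ, ∀ N : ℕ, N₀ ≤ N → ∃ J : ℕ,
  (N : ℝ) ^ κ ≤ ((2 ^ 2 ^ J : ℕ) : ℝ) ∧ ((2 ^ 2 ^ J : ℕ) : ℝ) ≤ (N : ℝ) ^ (1 / 10 : ℝ) ∧
  ∀ b : ℤ, (b : ℝ) ^ 2 ≤ Λ * N → ∀ c : ℕ, (PP a b c N : ℝ) ≤ K * N * Vc a b c (2 ^ 2 ^ J) + K * (N : ℝ) ^ (3 / 4 : ℝ)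

/-- **SQ**: second moment of the truncated singular series (adapt `Run7/h136/BP/SQ.lean`; for a prime `p` not dividing `2 a` the
sum of `rho a b c p` over `c` modulo `p` is `p` and `rho ≤ 2`; for `p ∣ 2 a` use `0 ≤ Vc`-factor `≤ 1`). -/
def S_SQ (a : ℤ) : Prop := ∀ E : ℕ, ∃ K : ℝ, 1 ≤ K ∧ ∃ N₀ : ℕ, ∀ N : ℕ, N₀ ≤ N → ∀ b : ℤ, ∀ C Jw : ℕ,
  (N : ℝ) ^ (1 / 2 : ℝ) ≤ C → C ≤ N → ((2 ^ 2 ^ Jw : ℕ) : ℝ) ≤ Real.log N ^ E →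
  ∑ c ∈ Icc 1 C, (Vc a b (c : ℕ) (2 ^ 2 ^ Jw) / V1 (2 ^ 2 ^ Jw)) ^ 2 ≤ K * C

/-- **AV**: the first moment of the truncated singular series is at most `(1 + η) C` (adapt `Run7/h136/BP/AV.lean` with
`Pool.Agent.N791.U.fl_polyU`, see also `Pool.Agent.N791.U.vc_mean_halfU`). -/
def S_AV (a : ℤ) (Λ : ℝ) : Prop := ∀ (E : ℕ) (η : ℝ), 0 < η → ∃ N₀ : ℕ, ∀ N : ℕ, N₀ ≤ N → ∀ b : ℤ, ∀ C Jw : ℕ,
  (b : ℝ) ^ 2 ≤ Λ * C → (N : ℝ) ^ (1 / 2 : ℝ) ≤ C → C ≤ N → ((2 ^ 2 ^ Jw : ℕ) : ℝ) ≤ Real.log N ^ E →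
  ∑ c ∈ Icc 1 C, Vc a b (c : ℕ) (2 ^ 2 ^ Jw) / V1 (2 ^ 2 ^ Jw) ≤ (1 + η) * C

end Run7.h545.HP
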