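import Mathlib
import Pool.Agent.Run7.h545.HP.Stm
import Pool.Agent.Run7.h994.BP.FM

/-!
Project HP, piece FM (helper545), part a: the positive root of `a y² + b y = v`, the bound in one cell.
-/

set_option autoImplicit false

namespace Run7.h545.HP

open Finset Filter Topology
open Pool.Agent.N792 (fv Vc V1 tri)
open Run7.h994.BP (sum_tri_le)

/-- the positive root of `a y² + b y = v` -/
noncomputable def yr (a b : ℝ) (v : ℝ) : ℝ := √(v / a + (b / (2 * a)) ^ 2) - b / (2 * a)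

lemma yr_eq {a b v : ℝ} (ha : 0 < a) (hv : 0 ≤ v) : a * (yr a b v) ^ 2 + b * yr a b v = v := by
  unfold yr
  have h1 : √(v / a + (b / (2 * a)) ^ 2) ^ 2 = v / a + (b / (2 * a)) ^ 2 := Real.sq_sqrt (by positivity)
  have h2 : a * (√(v / a + (b / (2 * a)) ^ 2) - b / (2 * a)) ^ 2 + b * (√(v / a + (b / (2 * a)) ^ 2) - b / (2 * a)) =
      a * √(v / a + (b / (2 * a)) ^ 2) ^ 2 - a * (b / (2 * a)) ^ 2 := by
    field_simp
    ring
  rw [h2, h1]
  field_simp
  ring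

/-- `p` is a prime value of the family -/
def IsPV (a b : ℤ) (N C p : ℕ) : Prop := p.Prime ∧ ∃ n ∈ Icc 1 N, ∃ c ∈ Icc 1 C, (p : ℤ) = fv a b (c : ℕ) n

open Classical in
/-- the prime values of the family -/
noncomputable def PV (a b : ℤ) (N C : ℕ) : Finset ℕ := (Ioc 0 (a.toNat * N ^ 2)).filter (fun p => IsPV a b N C p)

lemma mem_PV {a b : ℤ} {N C p : ℕ} : p ∈ PV a b N C ↔
    (0 < p ∧ p ≤ a.toNat * N ^ 2) ∧ p.Prime ∧ ∃ n ∈ Icc 1 N, ∃ c ∈ Icc 1 C, (p : ℤ) = fv a b (c : ℕ) n := by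
  classical
  unfold PV
  rw [Finset.mem_filter, Finset.mem_Ioc]
  rfl

lemma card_PV (a b : ℤ) (N C : ℕ) : ((PV a b N C).card : ℝ) ≤ ∑ c ∈ Icc 1 C, (PP a b (c : ℕ) N : ℝ) := by
  classical
  have h1 : PV a b N C ⊆ (Icc 1 C).biUnion (fun c : ℕ =>
      ((Icc 1 N).filter (fun n : ℕ => (fv a b (c : ℕ) n).toNat.Prime)).image (fun n => (fv a b (c : ℕ) n).toNat)) := by
    intro p hp
    rw [mem_PV] at hp
    obtain ⟨_, hp, n, hn, c, hc, h⟩ := hp
    rw [Finset.mem_biUnion]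
    refine ⟨c, hc, ?_⟩
    rw [Finset.mem_image]
    have h2 : (fv a b (c : ℕ) n).toNat = p := by rw [← h]; exact Int.toNat_natCast p
    refine ⟨n, ?_, h2⟩
    rw [Finset.mem_filter]
    exact ⟨hn, by rw [h2]; exact hp⟩
  have h2 : (PV a b N C).card ≤ ∑ c ∈ Icc 1 C, PP a b (c : ℕ) N := by
    refine (Finset.card_le_card h1).trans (Finset.card_biUnion_le.trans ?_)
    apply Finset.sum_le_sum
    intro c _
    unfold PP
    exact Finset.card_image_le
  exact_mod_cast h2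

lemma log_PV (a b : ℤ) (N C : ℕ) (ha : 0 < a) (hN : 1 ≤ N) :
    ∑ p ∈ PV a b N C, Real.log p ≤ (2 * Real.log N + Real.log a) * ∑ c ∈ Icc 1 C, (PP a b (c : ℕ) N : ℝ) := by
  have hlog : 0 ≤ Real.log N := Real.log_nonneg (by exact_mod_cast hN)
  have ha1 : (1 : ℝ) ≤ a := by exact_mod_cast ha
  have hloga : 0 ≤ Real.log a := Real.log_nonneg ha1
  have hN0 : (0 : ℝ) < N := by
    have : 0 < N := hN
    exact_mod_cast this
  calc ∑ p ∈ PV a b N C, Real.log p ≤ ∑ p ∈ PV a b N C, (2 * Real.log N + Real.log a) := by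
        apply Finset.sum_le_sum
        intro p hp
        rw [mem_PV] at hp
        have h0 : ((a.toNat : ℕ) : ℝ) = a := by
          have : ((a.toNat : ℕ) : ℤ) = a := Int.toNat_of_nonneg ha.le
          exact_mod_cast this
        have h1 : (p : ℝ) ≤ a * (N : ℝ) ^ 2 := by
          rw [← h0]
          exact_mod_cast hp.1.2
        have h2 : (0 : ℝ) < p := by exact_mod_cast hp.1.1
        calc Real.log p ≤ Real.log (a * (N : ℝ) ^ 2) := Real.log_le_log h2 h1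
          _ = 2 * Real.log N + Real.log a := by
              rw [Real.log_mul (by positivity) (by positivity), Real.log_pow]
              push_cast
              ring
    _ = (2 * Real.log N + Real.log a) * (PV a b N C).card := by rw [Finset.sum_const, nsmul_eq_mul]; ring
    _ ≤ _ := by
        apply mul_le_mul_of_nonneg_left (card_PV a b N C) (by positivity)

lemma mem_PV_of_fract {a b : ℤ} {N C r p : ℕ} (ha : 0 < a) (hr : r ≤ N) (hp : p.Prime)
    (hpr : (p : ℤ) ≤ a * (r : ℤ) ^ 2) (hbN : a * (r : ℤ) ^ 2 ≤ a * (N : ℤ) ^ 2 + b * N) (hab : a + |b| ≤ p)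
    (hab1 : 4 * a ≤ p)
    (hb : b ^ 2 ≤ 4 * a ^ 2 * (2 * r + 1)) (hbn : |b| ≤ a * N)
    (h0 : 0 < Int.fract (yr a b p)) (h1 : Int.fract (yr a b p) < (C : ℝ) / (2 * a * (r + 1))) : p ∈ PV a b N C := by
  have ha0 : (0 : ℝ) < a := by exact_mod_cast ha
  have hp0 : 0 < p := hp.pos
  have hpR : (0 : ℝ) < p := by exact_mod_cast hp0
  have hr0 : (0 : ℝ) ≤ r := Nat.cast_nonneg _
  obtain ⟨y, hy⟩ : ∃ y, y = yr a b p := ⟨_, rfl⟩
  obtain ⟨β, hβ⟩ : ∃ β : ℝ, β = (b : ℝ) / (2 * a) := ⟨_, rfl⟩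
  obtain ⟨S, hS⟩ : ∃ S : ℝ, S = √((p : ℝ) / a + β ^ 2) := ⟨_, rfl⟩
  have hyS : y = S - β := by rw [hy, hS, hβ]; rfl
  have hS2 : S ^ 2 = p / a + β ^ 2 := by rw [hS]; exact Real.sq_sqrt (by positivity)
  have hS0 : 0 ≤ S := by rw [hS]; exact Real.sqrt_nonneg _
  have hyeq : (a : ℝ) * y ^ 2 + b * y = p := by rw [hy]; exact yr_eq ha0 hpR.le
  have hb2 : (b : ℝ) = 2 * a * β := by rw [hβ]; field_simp
  have hprR : (p : ℝ) ≤ a * (r : ℝ) ^ 2 := by exact_mod_cast hpr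
  have hpa : (p : ℝ) / a ≤ (r : ℝ) ^ 2 := by
    rw [div_le_iff₀ ha0]
    linarith
  -- S ≤ r + 1
  have hSr : S ≤ r + 1 := by
    have h2 : β ^ 2 ≤ 2 * r + 1 := by
      have h3 : (b : ℝ) ^ 2 ≤ 4 * (a : ℝ) ^ 2 * (2 * r + 1) := by exact_mod_cast hb
      rw [hβ, div_pow, div_le_iff₀ (by positivity)]
      calc (b : ℝ) ^ 2 ≤ 4 * (a : ℝ) ^ 2 * (2 * r + 1) := h3
        _ = (2 * r + 1) * (2 * a) ^ 2 := by ring
    have h4 : S ^ 2 ≤ (r + 1) ^ 2 := by
      rw [hS2]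
      nlinarith
    exact le_of_sq_le_sq h4 (by positivity)
  -- y ≥ 1
  have hS1 : 2 ≤ S := by
    have h2 : (4 : ℝ) ≤ p / a := by
      rw [le_div_iff₀ ha0]
      exact_mod_cast hab1
    have h3 : (2 : ℝ) ^ 2 ≤ S ^ 2 := by
      rw [hS2]
      nlinarith [sq_nonneg β]
    exact le_of_sq_le_sq h3 hS0
  have hβab : |(b : ℝ)| = 2 * a * |β| := by
    rw [hb2, abs_mul, abs_of_pos (show (0 : ℝ) < 2 * a by positivity)]
  have hy1 : 1 ≤ y := by
    rw [hyS]
    have h2 : (a : ℝ) + |(b : ℝ)| ≤ p := by exact_mod_cast hab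
    rw [hβab] at h2
    have h3 : 1 + 2 * |β| ≤ p / a := by
      rw [le_div_iff₀ ha0]
      linarith
    have h4 : (1 + |β|) ^ 2 ≤ S ^ 2 := by
      rw [hS2, ← sq_abs β]
      nlinarith
    have h5 : 1 + |β| ≤ S := le_of_sq_le_sq h4 hS0
    have h6 := le_abs_self β
    linarith
  have hyN : y ≤ N := by
    rw [hyS]
    have h2 : (a : ℝ) * (r : ℝ) ^ 2 ≤ a * (N : ℝ) ^ 2 + b * N := by exact_mod_cast hbN
    have h3 : (p : ℝ) / a ≤ (N : ℝ) ^ 2 + 2 * β * N := by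
      rw [div_le_iff₀ ha0]
      rw [hb2] at h2
      linarith
    have h4 : |(b : ℝ)| ≤ a * N := by exact_mod_cast hbn
    rw [hβab] at h4
    have h5 : |β| ≤ N := by
      have h6 : (a : ℝ) * (2 * |β|) ≤ a * N := by linarith
      have h7 := le_of_mul_le_mul_left h6 ha0
      have h8 := abs_nonneg β
      linarith
    have h6 : 0 ≤ (N : ℝ) + β := by
      have := neg_abs_le β
      linarith
    have h7 : S ^ 2 ≤ (N + β) ^ 2 := by
      rw [hS2]
      nlinarith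
    have h8 := le_of_sq_le_sq h7 h6
    linarith
  -- the integer part
  obtain ⟨n, hn⟩ : ∃ n, n = ⌊y⌋₊ := ⟨_, rfl⟩
  have hy0 : 0 ≤ y := by linarith
  have hfr : Int.fract y = y - n := by
    rw [hn, Int.fract, ← natCast_floor_eq_intCast_floor hy0]
  rw [← hy, hfr] at h0 h1
  have hn1 : 1 ≤ n := by rw [hn]; exact Nat.le_floor (by exact_mod_cast hy1)
  have hnN : n ≤ N := by
    have h2 : (n : ℝ) ≤ N := by linarith
    exact_mod_cast h2
  have hφ1 : y - n < 1 := by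
    rw [← hfr]
    exact Int.fract_lt_one y
  obtain ⟨c, hc⟩ : ∃ c : ℤ, c = (p : ℤ) - (a * (n : ℤ) ^ 2 + b * n) := ⟨_, rfl⟩
  have hcR : (c : ℝ) = (y - n) * (2 * a * S - a * (y - n)) := by
    have h2 : (c : ℝ) = (p : ℝ) - (a * (n : ℝ) ^ 2 + b * n) := by rw [hc]; push_cast; ring
    rw [h2, ← hyeq, hb2, hyS]
    ring
  have hcpos : 0 < c := by
    have h2 : (0 : ℝ) < c := by
      rw [hcR]
      apply mul_pos h0
      nlinarith
    exact_mod_cast h2
  have hcC : c ≤ C := by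
    have h2 : (c : ℝ) ≤ C := by
      rw [hcR]
      rw [lt_div_iff₀ (by positivity)] at h1
      calc (y - n) * (2 * a * S - a * (y - n)) ≤ (y - n) * (2 * a * (r + 1)) := by
            apply mul_le_mul_of_nonneg_left _ h0.le
            have h3 : (a : ℝ) * S ≤ a * (r + 1) := by gcongr
            nlinarith
        _ ≤ C := h1.le
    exact_mod_cast h2
  rw [mem_PV]
  have hatn : ((a.toNat : ℕ) : ℤ) = a := Int.toNat_of_nonneg ha.le
  refine ⟨⟨hp0, ?_⟩, hp, n, ?_, c.toNat, ?_, ?_⟩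
  · have h2 : (p : ℤ) ≤ a.toNat * (N : ℤ) ^ 2 := by
      rw [hatn]
      calc (p : ℤ) ≤ a * (r : ℤ) ^ 2 := hpr
        _ ≤ a * (N : ℤ) ^ 2 := by
            have : (r : ℤ) ≤ N := by exact_mod_cast hr
            gcongr
    exact_mod_cast h2
  · rw [Finset.mem_Icc]
    exact ⟨hn1, hnN⟩
  · rw [Finset.mem_Icc]
    constructor
    · omega
    · omega
  · unfold fv
    rw [Int.toNat_of_nonneg hcpos.le, hc]
    ring

/-- comparison of the root with `√(v / a)` in a cell -/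
lemma yr_cell {a b v q r M : ℝ} (ha : 0 < a) (hq : 0 < q) (hqv : a * q ^ 2 ≤ v) (hvr : v ≤ a * r ^ 2) (hr : r = q + M)
    (hM : 0 ≤ M) :
    0 ≤ yr a b v - (√(v / a) + (√(r ^ 2 + (b / (2 * a)) ^ 2) - r - b / (2 * a))) ∧
    yr a b v - (√(v / a) + (√(r ^ 2 + (b / (2 * a)) ^ 2) - r - b / (2 * a))) ≤ b ^ 2 * M / (8 * a ^ 2 * q * r) := by
  obtain ⟨β, hβ⟩ : ∃ β : ℝ, β = b / (2 * a) := ⟨_, rfl⟩
  have hr0 : 0 < r := by linarith
  obtain ⟨σ, hσ⟩ : ∃ σ : ℝ, σ = √(v / a) := ⟨_, rfl⟩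
  have hv0 : 0 ≤ v := le_trans (by positivity) hqv
  have hσ2 : σ ^ 2 = v / a := by rw [hσ]; exact Real.sq_sqrt (by positivity)
  have hσ0 : 0 ≤ σ := by rw [hσ]; exact Real.sqrt_nonneg _
  have hσq : q ≤ σ := by
    apply le_of_sq_le_sq _ hσ0
    rw [hσ2, le_div_iff₀ ha]
    linarith
  have hσr : σ ≤ r := by
    apply le_of_sq_le_sq _ hr0.le
    rw [hσ2, div_le_iff₀ ha]
    linarith
  have hy : yr a b v = √(σ ^ 2 + β ^ 2) - β := by rw [hσ2, hβ]; rfl
  rw [hy, ← hβ, ← hσ]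
  obtain ⟨A, hA⟩ : ∃ A : ℝ, A = √(σ ^ 2 + β ^ 2) := ⟨_, rfl⟩
  obtain ⟨B, hB⟩ : ∃ B : ℝ, B = √(r ^ 2 + β ^ 2) := ⟨_, rfl⟩
  have hA2 : A ^ 2 = σ ^ 2 + β ^ 2 := by rw [hA]; exact Real.sq_sqrt (by positivity)
  have hB2 : B ^ 2 = r ^ 2 + β ^ 2 := by rw [hB]; exact Real.sq_sqrt (by positivity)
  have hA0 : 0 ≤ A := by rw [hA]; exact Real.sqrt_nonneg _
  have hB0 : 0 ≤ B := by rw [hB]; exact Real.sqrt_nonneg _
  have hAσ : σ ≤ A := by
    apply le_of_sq_le_sq _ hA0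
    rw [hA2]
    nlinarith [sq_nonneg β]
  have hBr : r ≤ B := by
    apply le_of_sq_le_sq _ hB0
    rw [hB2]
    nlinarith [sq_nonneg β]
  rw [← hA, ← hB]
  have hAs : A - σ = β ^ 2 / (A + σ) := by
    rw [eq_div_iff (by linarith)]
    nlinarith
  have hBs : B - r = β ^ 2 / (B + r) := by
    rw [eq_div_iff (by linarith)]
    nlinarith
  have e1 : A - β - (σ + (B - r - β)) = (A - σ) - (B - r) := by ring
  rw [e1, hAs, hBs]
  have hAB : A + σ ≤ B + r := by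
    have : A ≤ B := by
      apply le_of_sq_le_sq _ hB0
      rw [hA2, hB2]
      nlinarith
    linarith
  have hApos : 0 < A + σ := by linarith
  have hBpos : 0 < B + r := by linarith
  constructor
  · have : β ^ 2 / (B + r) ≤ β ^ 2 / (A + σ) := by gcongr
    linarith
  · have h1 : β ^ 2 / (A + σ) - β ^ 2 / (B + r) = β ^ 2 * ((B + r) - (A + σ)) / ((A + σ) * (B + r)) := by
      field_simp
    rw [h1]
    have h2 : B - A ≤ r - σ := by
      have h3 : (B - A) * (B + A) = (r - σ) * (r + σ) := by nlinarith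
      by_contra hcon
      push Not at hcon
      have h4 : 0 ≤ r - σ := by linarith
      have h5 : r + σ ≤ B + A := by linarith
      have h6 : 0 < B + A := by linarith
      have h7 : (r - σ) * (r + σ) ≤ (r - σ) * (B + A) := by gcongr
      have h8 : (r - σ) * (B + A) < (B - A) * (B + A) := by gcongr
      linarith
    have h3 : (B + r) - (A + σ) ≤ 2 * M := by linarith
    have h4 : (2 * q) * (2 * r) ≤ (A + σ) * (B + r) := by
      apply mul_le_mul (by linarith) (by linarith) (by linarith) (by linarith)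
    calc β ^ 2 * ((B + r) - (A + σ)) / ((A + σ) * (B + r)) ≤ β ^ 2 * (2 * M) / ((2 * q) * (2 * r)) := by
          gcongr
      _ = b ^ 2 * M / (8 * a ^ 2 * q * r) := by
          rw [hβ]
          field_simp
          ring

end Run7.h545.HP
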