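import Mathlib
import Pool.Agent.Run7.h545.HP.FMa

/-!
Project HP, piece FM (helper545): the first moment, lower bound, uniformly in `b`.
-/

set_option autoImplicit false

namespace Run7.h545.HP

open Finset Filter Topology
open Pool.Agent.N792 (fv Vc V1 tri)
open Run7.h994.BP (sum_tri_le pnt_abs W_ge sum_Ioc_chain rpow_low)

lemma sv_eq (a : ℝ) (ha : 0 < a) (v : ℕ) : 1 / √a * (v : ℝ) ^ (1 / ((2 : ℕ) : ℝ)) = √((v : ℝ) / a) := by
  have h1 : (v : ℝ) ^ (1 / ((2 : ℕ) : ℝ)) = √(v : ℝ) := by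
    rw [Real.sqrt_eq_rpow]
    norm_num
  rw [h1, Real.sqrt_div (Nat.cast_nonneg v)]
  ring

open Classical in
/-- the bound in one cell -/
lemma cell_bound (k L K N C i M : ℕ) (a : ℕ) (b : ℤ) (δ η₁ C₀ Λ : ℝ) (ha : 1 ≤ a) (hM : 1 ≤ M)
    (hi : K ≤ i) (hK : 1 ≤ K)
    (hkK : k + 1 + L = K) (hr : (i + 1) * M ≤ N)
    (hδ0 : 0 < δ) (hδ : (K : ℝ) * δ = (C : ℝ) / (2 * a * ((((i + 1) * M : ℕ) : ℝ) + 1)))
    (hκ : (K : ℝ) * δ ≤ 1 / 2) (hΛL : Λ ≤ L) (hbΛ : (b : ℝ) ^ 2 ≤ Λ * C)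
    (hbN : (a : ℤ) * (((i + 1) * M : ℕ) : ℤ) ^ 2 ≤ a * (N : ℤ) ^ 2 + b * N)
    (hab : (a : ℤ) + |b| ≤ a * ((i * M : ℕ) : ℤ) ^ 2) (hiM : 4 ≤ (i * M) ^ 2)
    (hb2 : b ^ 2 ≤ 4 * (a : ℤ) ^ 2 * (2 * (((i + 1) * M : ℕ) : ℤ) + 1)) (hbn : |b| ≤ a * N)
    (hT : ∀ t : ℝ, |∑ v ∈ Ioc (a * (i * M) ^ 2) (a * ((i + 1) * M) ^ 2), ArithmeticFunction.vonMangoldt v *
        tri δ (1 / √(a : ℝ) * (v : ℝ) ^ (1 / ((2 : ℕ) : ℝ)) + t) -
      δ * ∑ v ∈ Ioc (a * (i * M) ^ 2) (a * ((i + 1) * M) ^ 2), ArithmeticFunction.vonMangoldt v| ≤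
        η₁ * (δ * ((a * (i * M) ^ 2 : ℕ) : ℝ)))
    (hC₀ : ∀ x : ℝ, Chebyshev.psi x - Chebyshev.theta x ≤ C₀ * x.sqrt) (hC₀' : 0 ≤ C₀) :
    k * (δ * ∑ v ∈ Ioc (a * (i * M) ^ 2) (a * ((i + 1) * M) ^ 2), ArithmeticFunction.vonMangoldt v -
      η₁ * (δ * ((a * (i * M) ^ 2 : ℕ) : ℝ))) - C₀ * (√(a : ℝ) * N) ≤
      ∑ p ∈ Ioc (a * (i * M) ^ 2) (a * ((i + 1) * M) ^ 2), if p ∈ PV a b N C then Real.log p else 0 := by
  obtain ⟨q, hq⟩ : ∃ q, q = i * M := ⟨_, rfl⟩
  obtain ⟨r, hrd⟩ : ∃ r, r = (i + 1) * M := ⟨_, rfl⟩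
  have hqr : r = q + M := by rw [hrd, hq]; ring
  rw [← hq] at hab hiM hT ⊢
  rw [← hrd] at hr hδ hbN hb2 hT ⊢
  have ha0 : (0 : ℝ) < a := by
    have : 0 < a := ha
    exact_mod_cast this
  have ha1 : (1 : ℝ) ≤ a := by exact_mod_cast ha
  have hKM : K * M ≤ q := by rw [hq]; exact Nat.mul_le_mul_right _ hi
  have hqpos : 0 < q := by
    rw [hq]
    apply Nat.mul_pos (by omega) (by omega)
  have hq0 : (0 : ℝ) < q := by exact_mod_cast hqpos
  have hrpos : 0 < r := by omega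
  have hr0 : (0 : ℝ) < r := by exact_mod_cast hrpos
  have hK0 : (0 : ℝ) < K := by
    have : 0 < K := hK
    exact_mod_cast this
  have hkK' : (k : ℝ) + 1 + L = K := by exact_mod_cast hkK
  set W := ∑ v ∈ Ioc (a * q ^ 2) (a * r ^ 2), ArithmeticFunction.vonMangoldt v with hW
  -- the shift
  obtain ⟨t, ht⟩ : ∃ t : ℝ, t = √((r : ℝ) ^ 2 + ((b : ℝ) / (2 * a)) ^ 2) - r - (b : ℝ) / (2 * a) := ⟨_, rfl⟩
  have hkδ : ((k : ℝ) + 1) * δ ≤ 1 / 2 := by
    refine le_trans ?_ hκ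
    apply mul_le_mul_of_nonneg_right _ hδ0.le
    have : (0 : ℝ) ≤ L := Nat.cast_nonneg _
    linarith
  have h1 : k * (δ * W - η₁ * (δ * ((a * q ^ 2 : ℕ) : ℝ))) ≤
      ∑ j ∈ range k, ∑ v ∈ Ioc (a * q ^ 2) (a * r ^ 2), ArithmeticFunction.vonMangoldt v *
        tri δ (√((v : ℝ) / a) + t + -((j + 1 : ℝ) * δ)) := by
    calc k * (δ * W - η₁ * (δ * ((a * q ^ 2 : ℕ) : ℝ)))
        = ∑ j ∈ range k, (δ * W - η₁ * (δ * ((a * q ^ 2 : ℕ) : ℝ))) := by
          rw [Finset.sum_const, Finset.card_range, nsmul_eq_mul]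
      _ ≤ _ := by
          apply Finset.sum_le_sum
          intro j _
          have h2 := (abs_le.mp (hT (t + -((j + 1 : ℝ) * δ)))).1
          have h3 : ∑ v ∈ Ioc (a * q ^ 2) (a * r ^ 2), ArithmeticFunction.vonMangoldt v *
              tri δ (1 / √(a : ℝ) * (v : ℝ) ^ (1 / ((2 : ℕ) : ℝ)) + (t + -((j + 1 : ℝ) * δ))) =
              ∑ v ∈ Ioc (a * q ^ 2) (a * r ^ 2), ArithmeticFunction.vonMangoldt v *
              tri δ (√((v : ℝ) / a) + t + -((j + 1 : ℝ) * δ)) := by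
            apply Finset.sum_congr rfl
            intro v _
            rw [sv_eq a ha0, add_assoc]
          rw [h3] at h2
          linarith
  have h2 : ∑ j ∈ range k, ∑ v ∈ Ioc (a * q ^ 2) (a * r ^ 2), ArithmeticFunction.vonMangoldt v *
        tri δ (√((v : ℝ) / a) + t + -((j + 1 : ℝ) * δ)) =
      ∑ v ∈ Ioc (a * q ^ 2) (a * r ^ 2), ArithmeticFunction.vonMangoldt v *
        ∑ j ∈ range k, tri δ (√((v : ℝ) / a) + t + -((j + 1 : ℝ) * δ)) := by
    rw [Finset.sum_comm]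
    apply Finset.sum_congr rfl
    intro v _
    rw [Finset.mul_sum]
  rw [h2] at h1
  -- membership
  have hmem : ∀ v : ℕ, v.Prime → a * q ^ 2 < v → v ≤ a * r ^ 2 → 0 < Int.fract (√((v : ℝ) / a) + t) →
      Int.fract (√((v : ℝ) / a) + t) < ((k : ℝ) + 1) * δ → v ∈ PV a b N C := by
    intro v hp hv1 hv2 hf0 hf1
    have hcell := yr_cell (a := (a : ℝ)) (b := (b : ℝ)) (v := (v : ℝ)) (q := (q : ℝ)) (r := (r : ℝ)) (M := (M : ℝ))
      ha0 hq0 (by exact_mod_cast hv1.le) (by exact_mod_cast hv2) (by exact_mod_cast hqr) (Nat.cast_nonneg _)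
    rw [← ht] at hcell
    obtain ⟨e, he⟩ : ∃ e : ℝ, e = yr a b v - (√((v : ℝ) / a) + t) := ⟨_, rfl⟩
    rw [← he] at hcell
    have heL : e ≤ L * δ := by
      refine hcell.2.trans ?_
      have hCnn : (0 : ℝ) ≤ C := Nat.cast_nonneg _
      have hLnn : (0 : ℝ) ≤ L := Nat.cast_nonneg _
      have hδe : δ = (C : ℝ) / (2 * a * ((r : ℝ) + 1)) / K := by
        rw [← hδ]
        field_simp
      rw [hδe]
      have hKMq : (K : ℝ) * M ≤ q := by exact_mod_cast hKM
      have hM0 : (0 : ℝ) < M := by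
        have : 0 < M := hM
        exact_mod_cast this
      have hr1 : (1 : ℝ) ≤ r := by
        have : 1 ≤ r := hrpos
        exact_mod_cast this
      calc (b : ℝ) ^ 2 * M / (8 * (a : ℝ) ^ 2 * q * r) ≤ (L * C) * M / (8 * (a : ℝ) ^ 2 * (K * M) * r) := by
            gcongr
            calc (b : ℝ) ^ 2 ≤ Λ * C := hbΛ
              _ ≤ L * C := by gcongr
        _ = L * C / (8 * (a : ℝ) ^ 2 * K * r) := by
            field_simp
        _ ≤ L * C / (4 * a * K * r) := by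
            gcongr
            · nlinarith
            · nlinarith
        _ ≤ L * C / (2 * a * K * (r + 1)) := by
            apply div_le_div_of_nonneg_left (by positivity) (by positivity)
            have : 0 ≤ 2 * a * K * (r - 1 : ℝ) := by
              apply mul_nonneg (by positivity)
              linarith
            nlinarith
        _ = L * ((C : ℝ) / (2 * a * ((r : ℝ) + 1)) / K) := by
            field_simp
    have hyr : yr a b v = (√((v : ℝ) / a) + t) + e := by rw [he]; ring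
    have hLδ : ((k : ℝ) + 1) * δ + L * δ = K * δ := by rw [← hkK']; ring
    have hfl : Int.fract (yr a b v) = Int.fract (√((v : ℝ) / a) + t) + e := by
      rw [hyr, Int.fract_eq_iff]
      refine ⟨by linarith [hcell.1], by linarith, ⌊√((v : ℝ) / a) + t⌋, ?_⟩
      have := Int.floor_add_fract (√((v : ℝ) / a) + t)
      linarith
    have hya : yr ((a : ℕ) : ℤ) (b : ℤ) (v : ℝ) = yr a b v := by
      push_cast
      rfl
    apply mem_PV_of_fract (r := r) (by exact_mod_cast ha) hr hp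
    · exact_mod_cast hv2
    · exact hbN
    · have h3 : ((a : ℤ)) * (q : ℤ) ^ 2 ≤ v := by exact_mod_cast hv1.le
      linarith
    · have h3 : 4 * a ≤ v := by
        calc 4 * a ≤ q ^ 2 * a := Nat.mul_le_mul_right _ hiM
          _ = a * q ^ 2 := by ring
          _ ≤ v := hv1.le
      exact_mod_cast h3
    · exact hb2
    · exact hbn
    · have h3 : Int.fract (yr ((a : ℤ) : ℝ) (b : ℝ) (v : ℝ)) = Int.fract (√((v : ℝ) / a) + t) + e := by
        rw [← hfl]
        push_cast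
        rfl
      rw [h3]
      linarith [hcell.1]
    · have h3 : Int.fract (yr ((a : ℤ) : ℝ) (b : ℝ) (v : ℝ)) = Int.fract (√((v : ℝ) / a) + t) + e := by
        rw [← hfl]
        push_cast
        rfl
      rw [h3]
      push_cast
      rw [← hδ, ← hLδ]
      linarith
  have h3 : ∑ v ∈ Ioc (a * q ^ 2) (a * r ^ 2), ArithmeticFunction.vonMangoldt v *
        ∑ j ∈ range k, tri δ (√((v : ℝ) / a) + t + -((j + 1 : ℝ) * δ)) ≤
      ∑ v ∈ Ioc (a * q ^ 2) (a * r ^ 2), ((if v ∈ PV a b N C then Real.log v else 0) +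
        (if ¬ v.Prime then ArithmeticFunction.vonMangoldt v else 0)) := by
    apply Finset.sum_le_sum
    intro v hv
    rw [Finset.mem_Ioc] at hv
    have hv0 : (0 : ℝ) ≤ Real.log v := Real.log_natCast_nonneg v
    have h4 := sum_tri_le hδ0 (√((v : ℝ) / a) + t) k hkδ
    have hL := ArithmeticFunction.vonMangoldt_nonneg (n := v)
    calc ArithmeticFunction.vonMangoldt v * ∑ j ∈ range k, tri δ (√((v : ℝ) / a) + t + -((j + 1 : ℝ) * δ))
        ≤ ArithmeticFunction.vonMangoldt v *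
          (if (0 < Int.fract (√((v : ℝ) / a) + t) ∧ Int.fract (√((v : ℝ) / a) + t) < ((k : ℝ) + 1) * δ)
            then 1 else 0) := by
          apply mul_le_mul_of_nonneg_left h4 hL
      _ ≤ _ := by
        by_cases hp : v.Prime
        · simp only [hp, not_true_eq_false, if_false, add_zero]
          split_ifs with hc hm hm
          · rw [ArithmeticFunction.vonMangoldt_apply_prime hp, mul_one]
          · exfalso
            exact hm (hmem v hp hv.1 hv.2 hc.1 hc.2)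
          · rw [mul_zero]; exact hv0
          · rw [mul_zero]
        · simp only [hp, not_false_eq_true, if_true]
          have h5 : 0 ≤ (if v ∈ PV a b N C then Real.log v else 0) := by
            split_ifs
            · exact hv0
            · exact le_rfl
          have h6 : ArithmeticFunction.vonMangoldt v *
            (if (0 < Int.fract (√((v : ℝ) / a) + t) ∧ Int.fract (√((v : ℝ) / a) + t) < ((k : ℝ) + 1) * δ)
              then 1 else 0) ≤ ArithmeticFunction.vonMangoldt v := by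
            split_ifs
            · rw [mul_one]
            · rw [mul_zero]; exact hL
          linarith
  rw [Finset.sum_add_distrib] at h3
  have h7 : ∑ v ∈ Ioc (a * q ^ 2) (a * r ^ 2), (if ¬ v.Prime then ArithmeticFunction.vonMangoldt v else 0) ≤
      C₀ * (√(a : ℝ) * N) := by
    calc ∑ v ∈ Ioc (a * q ^ 2) (a * r ^ 2), (if ¬ v.Prime then ArithmeticFunction.vonMangoldt v else 0)
        ≤ ∑ v ∈ Ioc 0 (a * r ^ 2), (if ¬ v.Prime then ArithmeticFunction.vonMangoldt v else 0) := by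
          apply Finset.sum_le_sum_of_subset_of_nonneg
          · intro v hv
            rw [Finset.mem_Ioc] at hv ⊢
            omega
          · intro v _ _
            split_ifs
            · exact le_rfl
            · exact ArithmeticFunction.vonMangoldt_nonneg
      _ = Chebyshev.psi ((a * r ^ 2 : ℕ) : ℝ) - Chebyshev.theta ((a * r ^ 2 : ℕ) : ℝ) := by
          rw [Chebyshev.psi_sub_theta_eq_sum_not_prime, Nat.floor_natCast, Finset.sum_filter]
      _ ≤ C₀ * √((a * r ^ 2 : ℕ) : ℝ) := hC₀ _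
      _ = C₀ * (√(a : ℝ) * r) := by
          congr 1
          push_cast
          rw [Real.sqrt_mul ha0.le, Real.sqrt_sq (Nat.cast_nonneg _)]
      _ ≤ C₀ * (√(a : ℝ) * N) := by
          have : (r : ℝ) ≤ N := by exact_mod_cast hr
          gcongr
  linarith

/-- the main term of a cell -/
lemma term_alg (K M i C W α k : ℝ) (hα : 0 < α) (hK : 1 ≤ K) (hM : 0 < M) (hC : 0 ≤ C) (hk : 0 ≤ k)
    (hi : K ≤ i) (hi2 : i + 1 ≤ K ^ 2) (hr : K ≤ (i + 1) * M)
    (hW : α * ((i + 1) * M) ^ 2 - α * (i * M) ^ 2 - 2 * (1 / (4 * K ^ 3)) * (α * ((i + 1) * M) ^ 2) ≤ W) :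
    (k / K) * (1 - 1 / K) ^ 2 * (C * M) ≤
      k * ((C / (2 * α * ((i + 1) * M + 1)) / K) * W - 1 / (2 * K ^ 3) *
        ((C / (2 * α * ((i + 1) * M + 1)) / K) * (α * (i * M) ^ 2))) := by
  have hK0 : 0 < K := by linarith
  have hi0 : 0 < i + 1 := by linarith
  obtain ⟨r, hrr⟩ : ∃ r, r = (i + 1) * M := ⟨_, rfl⟩
  have hr0 : 0 < r := by rw [hrr]; positivity
  have hd : 0 ≤ C / (2 * α * (r + 1)) / K := by positivity
  -- W - η₁ X ≥ α M² (i+1) 2 (1-1/K)
  have h1 : α * (M ^ 2 * ((i + 1) * (2 * (1 - 1 / K)))) ≤ W - 1 / (2 * K ^ 3) * (α * (i * M) ^ 2) := by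
    have h2 : (i * M) ^ 2 ≤ ((i + 1) * M) ^ 2 := by
      apply pow_le_pow_left₀ (by nlinarith)
      nlinarith
    have h3 : 1 / (2 * K ^ 3) * (α * (i * M) ^ 2) ≤ 1 / (2 * K ^ 3) * (α * ((i + 1) * M) ^ 2) := by gcongr
    have h4 : α * (M ^ 2 * ((2 * i + 1) - (i + 1) ^ 2 / K ^ 3)) ≤ W - 1 / (2 * K ^ 3) * (α * (i * M) ^ 2) := by
      have e1 : α * (M ^ 2 * ((2 * i + 1) - (i + 1) ^ 2 / K ^ 3)) =
          α * ((i + 1) * M) ^ 2 - α * (i * M) ^ 2 - 2 * (1 / (4 * K ^ 3)) * (α * ((i + 1) * M) ^ 2) -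
            1 / (2 * K ^ 3) * (α * ((i + 1) * M) ^ 2) := by
        field_simp
        ring
      rw [e1]
      linarith
    refine le_trans ?_ h4
    apply mul_le_mul_of_nonneg_left _ hα.le
    apply mul_le_mul_of_nonneg_left _ (by positivity)
    have h5 : 1 ≤ (i + 1) / K := by rw [le_div_iff₀ hK0]; linarith
    have h6 : (i + 1) ^ 2 / K ^ 3 ≤ (i + 1) / K := by
      rw [div_le_div_iff₀ (by positivity) hK0]
      have : (i + 1) ^ 2 * K = (i + 1) * K * (i + 1) := by ring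
      rw [this]
      calc (i + 1) * K * (i + 1) ≤ (i + 1) * K * K ^ 2 := by gcongr
        _ = (i + 1) * K ^ 3 := by ring
    have h7 : (i + 1) * (2 * (1 - 1 / K)) = 2 * (i + 1) - 2 * ((i + 1) / K) := by
      field_simp
    rw [h7]
    linarith
  have h1K : 0 ≤ 1 - 1 / K := by
    have : 1 / K ≤ 1 := by rw [div_le_one hK0]; exact hK
    linarith
  have h2K : 1 - 1 / K ≤ r / (r + 1) := by
    rw [← hrr] at hr
    rw [le_div_iff₀ (by positivity)]
    have : (r + 1) / K ≥ 1 := by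
      rw [ge_iff_le, le_div_iff₀ hK0]
      linarith
    have e1 : (1 - 1 / K) * (r + 1) = r + 1 - (r + 1) / K := by ring
    rw [e1]
    linarith
  rw [← hrr]
  calc (k / K) * (1 - 1 / K) ^ 2 * (C * M)
      = (k / K) * (1 - 1 / K) * (C * M) * (1 - 1 / K) := by ring
    _ ≤ (k / K) * (1 - 1 / K) * (C * M) * (r / (r + 1)) := by gcongr
    _ = k * (C / (2 * α * (r + 1)) / K) * (α * (M ^ 2 * ((i + 1) * (2 * (1 - 1 / K))))) := by
        have hMr : M ^ 2 * ((i + 1) * (2 * (1 - 1 / K))) = M * r * (2 * (1 - 1 / K)) := by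
          rw [hrr]; ring
        rw [hMr]
        field_simp
    _ ≤ k * (C / (2 * α * (r + 1)) / K) * (W - 1 / (2 * K ^ 3) * (α * (i * M) ^ 2)) := by gcongr
    _ = _ := by ring

end Run7.h545.HP
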