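import Mathlib
import Pool.Agent.Run7.h545.HP.FM

/-!
Project HP, piece FM (helper545): the summation over the cells.
-/

set_option autoImplicit false

namespace Run7.h545.HP

open Finset Filter Topology
open Pool.Agent.N792 (fv Vc V1 tri)
open Run7.h994.BP (sum_tri_le pnt_abs W_ge sum_Ioc_chain rpow_low)

lemma final_alg (K L k C N M C₁ η : ℝ) (hK3 : 3 ≤ K) (hL : 0 ≤ L) (hK5 : L + 5 ≤ K) (hKη : 4 * (L + 5) ≤ η * K)
    (hk : k = K - 1 - L) (hC : 0 ≤ C) (hN : 0 ≤ N) (hM : N - K ^ 2 ≤ K ^ 2 * M) (hM0 : 0 ≤ M) (hC₁ : 0 ≤ C₁) (hη : 0 < η)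
    (h3 : 8 * K ^ 2 ≤ η * N) (h4 : 8 * (K ^ 2 * C₁) ≤ η * C) :
    (1 - η / 2) * (C * N) ≤ (K ^ 2 - 1 - K) * ((k / K) * (1 - 1 / K) ^ 2 * (C * M) - C₁ * N) := by
  have hK0 : 0 < K := by linarith
  have hcells : 0 ≤ K ^ 2 - 1 - K := by nlinarith
  obtain ⟨x, hx⟩ : ∃ x, x = 1 / K := ⟨_, rfl⟩
  have hx0 : 0 < x := by rw [hx]; positivity
  have hxK : x * K = 1 := by rw [hx]; field_simp
  have hx3 : 3 * x ≤ 1 := by nlinarith
  have hxL : (L + 5) * x ≤ 1 := by nlinarith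
  -- product
  have e1 : (K ^ 2 - 1 - K) * ((k / K) * (1 - 1 / K) ^ 2 * (C * M)) =
      ((1 - x - x ^ 2) * (1 - (L + 1) * x) * (1 - x) ^ 2) * (C * (K ^ 2 * M)) := by
    rw [hx, hk]
    field_simp
    ring
  have h5 : 1 - (L + 5) * x ≤ (1 - x - x ^ 2) * (1 - (L + 1) * x) * (1 - x) ^ 2 := by
    have a1 : 1 - 2 * x ≤ 1 - x - x ^ 2 := by nlinarith
    have a2 : 1 - 2 * x ≤ (1 - x) ^ 2 := by nlinarith
    have a3 : 0 ≤ 1 - 2 * x := by linarith
    have a4 : 0 ≤ 1 - (L + 1) * x := by nlinarith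
    calc 1 - (L + 5) * x ≤ (1 - 2 * x) * (1 - (L + 1) * x) * (1 - 2 * x) := by
          have b1 : 0 ≤ L * x := by positivity
          have b2 : 0 ≤ x ^ 2 := by positivity
          have b3 : (1 - 2 * x) * (1 - (L + 1) * x) * (1 - 2 * x) - (1 - (L + 5) * x) =
              4 * x ^ 2 * (1 - (L + 1) * x) + 4 * (L + 1) * x ^ 2 := by ring
          have b4 : 0 ≤ 4 * x ^ 2 * (1 - (L + 1) * x) + 4 * (L + 1) * x ^ 2 := by positivity
          linarith
      _ ≤ (1 - x - x ^ 2) * (1 - (L + 1) * x) * (1 - x) ^ 2 := by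
          have a5 : 0 ≤ 1 - x - x ^ 2 := by linarith
          have a6 : 0 ≤ (1 - x - x ^ 2) * (1 - (L + 1) * x) := mul_nonneg a5 a4
          gcongr
  have h6 : 0 ≤ 1 - (L + 5) * x := by linarith
  have h7 : (1 - (L + 5) * x) * (C * (N - K ^ 2)) ≤ (K ^ 2 - 1 - K) * ((k / K) * (1 - 1 / K) ^ 2 * (C * M)) := by
    rw [e1]
    have h8 : 0 ≤ C * (K ^ 2 * M) := by positivity
    calc (1 - (L + 5) * x) * (C * (N - K ^ 2)) ≤ (1 - (L + 5) * x) * (C * (K ^ 2 * M)) := by gcongr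
      _ ≤ _ := by gcongr
  have h8 : (L + 5) * x ≤ η / 4 := by
    have : (L + 5) * x * K ≤ η / 4 * K := by
      rw [mul_assoc, hxK]
      linarith
    exact le_of_mul_le_mul_right this hK0
  have h9 : (1 - η / 4) * (C * N) - C * K ^ 2 ≤ (1 - (L + 5) * x) * (C * (N - K ^ 2)) := by
    have b1 : (L + 5) * x * (C * N) ≤ η / 4 * (C * N) := by gcongr
    have b2 : 0 ≤ (L + 5) * x * (C * K ^ 2) := by positivity
    nlinarith
  have h10 : C * K ^ 2 ≤ η / 8 * (C * N) := by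
    have : K ^ 2 ≤ η / 8 * N := by linarith
    calc C * K ^ 2 ≤ C * (η / 8 * N) := by gcongr
      _ = _ := by ring
  have h11 : (K ^ 2 - 1 - K) * (C₁ * N) ≤ η / 8 * (C * N) := by
    have : K ^ 2 * C₁ ≤ η / 8 * C := by linarith
    calc (K ^ 2 - 1 - K) * (C₁ * N) ≤ K ^ 2 * (C₁ * N) := by
          apply mul_le_mul_of_nonneg_right _ (by positivity)
          linarith
      _ = (K ^ 2 * C₁) * N := by ring
      _ ≤ (η / 8 * C) * N := by gcongr
      _ = _ := by ring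
  calc (1 - η / 2) * (C * N) = (1 - η / 4) * (C * N) - η / 8 * (C * N) - η / 8 * (C * N) := by ring
    _ ≤ (K ^ 2 - 1 - K) * ((k / K) * (1 - 1 / K) ^ 2 * (C * M)) - (K ^ 2 - 1 - K) * (C₁ * N) := by linarith
    _ = _ := by ring

theorem fm (a : ℤ) (ha : 0 < a) (Λ : ℝ) (hΛ : 1 ≤ Λ) (hTRI : Run7.h462.BPD.S_TRI (1 / √(a : ℝ)) 2) : S_FM a Λ := by
  classical
  intro ε η hε hη
  obtain ⟨α, rfl⟩ : ∃ α : ℕ, a = (α : ℤ) := ⟨a.toNat, (Int.toNat_of_nonneg ha.le).symm⟩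
  have hα1 : 1 ≤ α := by exact_mod_cast ha
  have hα1r : (1 : ℝ) ≤ α := by exact_mod_cast hα1
  have hα0 : (0 : ℝ) < α := by linarith
  obtain ⟨L, hLd⟩ : ∃ L : ℕ, L = ⌈Λ⌉₊ := ⟨_, rfl⟩
  have hΛL : Λ ≤ L := by rw [hLd]; exact Nat.le_ceil _
  have hL0 : (0 : ℝ) ≤ L := Nat.cast_nonneg _
  obtain ⟨K, hK⟩ := exists_nat_ge (max (max 3 ((L : ℝ) + 5)) (4 * (L + 5) / η))
  have hK3 : (3 : ℝ) ≤ K := ((le_max_left _ _).trans (le_max_left _ _)).trans hK
  have hK5 : (L : ℝ) + 5 ≤ K := ((le_max_right _ _).trans (le_max_left _ _)).trans hK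
  have hKη : 4 * ((L : ℝ) + 5) ≤ η * K := by
    have h1 := (le_max_right _ _).trans hK
    rw [div_le_iff₀ hη] at h1
    linarith
  have hK3n : 3 ≤ K := by exact_mod_cast hK3
  have hK5n : L + 5 ≤ K := by exact_mod_cast hK5
  have hK0 : (0 : ℝ) < K := by linarith
  obtain ⟨k, hkd⟩ : ∃ k : ℕ, k + 1 + L = K := ⟨K - 1 - L, by omega⟩
  have hkr : (k : ℝ) = K - 1 - L := by
    have : (k : ℝ) + 1 + L = K := by exact_mod_cast hkd
    linarith
  obtain ⟨ε', hε'⟩ : ∃ x, x = min ε 1 / 16 := ⟨_, rfl⟩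
  have hε'0 : 0 < ε' := by
    rw [hε']
    have : 0 < min ε 1 := lt_min hε one_pos
    positivity
  have hε'1 : ε' ≤ 1 / 8 := by
    rw [hε']
    linarith [min_le_right ε 1]
  have hε'2 : ε' ≤ (ε / 2) / 8 := by
    rw [hε']
    linarith [min_le_left ε 1]
  obtain ⟨X₁, hX₁⟩ := hTRI ε' (1 / (2 * (K : ℝ) ^ 3)) hε'0 (by positivity)
  obtain ⟨x₂, hx₂⟩ := pnt_abs (1 / (4 * (K : ℝ) ^ 3)) (by positivity)
  obtain ⟨C₀', hC₀'⟩ := Chebyshev.psi_sub_theta_le_mul_sqrt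
  obtain ⟨C₀, hC₀d⟩ : ∃ C₀, C₀ = max C₀' 0 := ⟨_, rfl⟩
  have hC₀0 : 0 ≤ C₀ := by rw [hC₀d]; exact le_max_right _ _
  have hC₀ : ∀ x : ℝ, Chebyshev.psi x - Chebyshev.theta x ≤ C₀ * x.sqrt := fun x =>
    (hC₀' x).trans (mul_le_mul_of_nonneg_right (by rw [hC₀d]; exact le_max_left _ _) (Real.sqrt_nonneg _))
  have tend : ∀ a : ℝ, 0 < a → Tendsto (fun X : ℕ => (X : ℝ) ^ a) atTop atTop := fun a ha =>
    (tendsto_rpow_atTop ha).comp tendsto_natCast_atTop_atTop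
  have ev1 : ∀ᶠ N : ℕ in atTop, (2 * (K : ℝ)) ^ 2 ≤ (N : ℝ) ^ (ε / 2 / 2) :=
    (tend _ (by positivity)).eventually_ge_atTop _
  have ev2 : ∀ᶠ N : ℕ in atTop, 2 * (K : ℝ) ≤ (N : ℝ) ^ (1 / 10 : ℝ) :=
    (tend _ (by positivity)).eventually_ge_atTop _
  have ev3 : ∀ᶠ N : ℕ in atTop, 8 * (K : ℝ) ^ 2 / η ≤ (N : ℝ) ^ (1 : ℝ) :=
    (tend _ (by positivity)).eventually_ge_atTop _
  have ev4 : ∀ᶠ N : ℕ in atTop, 8 * ((K : ℝ) ^ 2 * (C₀ * √(α : ℝ))) / η ≤ (N : ℝ) ^ (1 / 2 : ℝ) :=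
    (tend _ (by positivity)).eventually_ge_atTop _
  have ev6 : ∀ᶠ N : ℕ in atTop, (α : ℝ) ≤ (N : ℝ) ^ (ε / 2) :=
    (tend _ (by positivity)).eventually_ge_atTop _
  -- `Λ N^(9/10) ≤ N / (8 K^4)`
  have ev7 : ∀ᶠ N : ℕ in atTop, 16 * Λ * (K : ℝ) ^ 4 ≤ (N : ℝ) ^ (1 / 10 : ℝ) :=
    (tend _ (by positivity)).eventually_ge_atTop _
  have ev8 : ∀ᶠ N : ℕ in atTop, Real.log α / η ≤ Real.log N :=
    (Real.tendsto_log_atTop.comp tendsto_natCast_atTop_atTop).eventually_ge_atTop _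
  obtain ⟨N₀, hN₀⟩ := eventually_atTop.mp (ev1.and (ev2.and (ev3.and (ev4.and (ev6.and (ev7.and (ev8.and
    (eventually_ge_atTop (2 * K ^ 2 * (X₁ + ⌈x₂⌉₊ + 2))))))))))
  refine ⟨N₀, fun N hN b C hbC hA1 hA2 => ?_⟩
  obtain ⟨c1, c2, c3, c4, c6, c7, c8, c5⟩ := hN₀ N hN
  rw [Real.rpow_one] at c3
  have hK2pos : 0 < K ^ 2 := by positivity
  have hN2K : 2 * K ^ 2 ≤ N := by
    calc 2 * K ^ 2 = 2 * K ^ 2 * 1 := by ring
      _ ≤ 2 * K ^ 2 * (X₁ + ⌈x₂⌉₊ + 2) := Nat.mul_le_mul_left _ (by omega)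
      _ ≤ N := c5
  have hN18 : 18 ≤ N := by nlinarith
  have hNr : (1 : ℝ) ≤ N := by
    have : 1 ≤ N := by omega
    exact_mod_cast this
  have hN0 : (0 : ℝ) < N := by linarith
  have hN2r : 2 * (K : ℝ) ^ 2 ≤ N := by exact_mod_cast hN2K
  -- M
  obtain ⟨M, hM⟩ : ∃ M, M = N / K ^ 2 := ⟨_, rfl⟩
  have hM1 : X₁ + ⌈x₂⌉₊ + 2 ≤ M := by
    rw [hM, Nat.le_div_iff_mul_le hK2pos]
    calc (X₁ + ⌈x₂⌉₊ + 2) * K ^ 2 ≤ 2 * K ^ 2 * (X₁ + ⌈x₂⌉₊ + 2) := by nlinarith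
      _ ≤ N := c5
  have hMpos : 0 < M := by omega
  have hM0 : (0 : ℝ) < M := by exact_mod_cast hMpos
  have hMK : K ^ 2 * M ≤ N := by rw [hM]; exact Nat.mul_div_le N (K ^ 2)
  have hMK2 : (N : ℝ) - (K : ℝ) ^ 2 ≤ (K : ℝ) ^ 2 * M := by
    have h1 : N ≤ K ^ 2 * M + K ^ 2 := by
      have h2 := Nat.div_add_mod N (K ^ 2)
      have h3 := Nat.mod_lt N hK2pos
      rw [← hM] at h2
      omega
    have h4 : (N : ℝ) ≤ (K : ℝ) ^ 2 * M + (K : ℝ) ^ 2 := by exact_mod_cast h1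
    linarith
  have hKM : (N : ℝ) / (2 * K) ≤ K * M := by
    rw [div_le_iff₀ (by positivity)]
    nlinarith
  have hMlow : (N : ℝ) / (2 * (K : ℝ) ^ 2) ≤ M := by
    rw [div_le_iff₀ (by positivity)]
    nlinarith
  have hA0 : (0 : ℝ) ≤ C := Nat.cast_nonneg _
  have hAhalf : (N : ℝ) ^ (1 / 2 : ℝ) ≤ C := by
    refine le_trans ?_ hA1
    apply Real.rpow_le_rpow_of_exponent_le hNr
    linarith
  have hApos : (0 : ℝ) < C := lt_of_lt_of_le (Real.rpow_pos_of_pos hN0 _) hAhalf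
  -- the size of b
  have hbM2 : (b : ℝ) ^ 2 ≤ (M : ℝ) ^ 2 := by
    -- b² ≤ Λ N^(9/10) ≤ N / (16 K^4) ≤ ... ≤ M²
    have h1 : Λ * C ≤ (N : ℝ) / (16 * (K : ℝ) ^ 4) := by
      rw [le_div_iff₀ (by positivity)]
      calc Λ * C * (16 * (K : ℝ) ^ 4) = (16 * Λ * (K : ℝ) ^ 4) * C := by ring
        _ ≤ (N : ℝ) ^ (1 / 10 : ℝ) * (N : ℝ) ^ (9 / 10 : ℝ) := by gcongr
        _ = N := by
            rw [← Real.rpow_add hN0]
            norm_num
    have h2 : ((N : ℝ) / (2 * (K : ℝ) ^ 2)) ^ 2 ≤ (M : ℝ) ^ 2 := by gcongr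
    have h3 : (N : ℝ) / (16 * (K : ℝ) ^ 4) ≤ ((N : ℝ) / (2 * (K : ℝ) ^ 2)) ^ 2 := by
      rw [div_pow]
      have h4 : (N : ℝ) ≤ (N : ℝ) ^ 2 := by
        rw [sq]
        exact le_mul_of_one_le_left hN0.le hNr
      have h5 : (2 * (K : ℝ) ^ 2) ^ 2 = 4 * (K : ℝ) ^ 4 := by ring
      rw [h5]
      have h6 : (0 : ℝ) < (K : ℝ) ^ 4 := by positivity
      apply div_le_div₀ (by positivity) h4 (by positivity)
      linarith
    linarith
  have hbabs : |b| ≤ (M : ℤ) := by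
    have h1 : b ^ 2 ≤ (M : ℤ) ^ 2 := by exact_mod_cast hbM2
    exact abs_le_of_sq_le_sq h1 (by positivity)
  -- the cells
  set x : ℕ → ℕ := fun i => α * (i * M) ^ 2 with hx
  have hxmono : Monotone x := by
    intro a b hab
    exact Nat.mul_le_mul_left _ (Nat.pow_le_pow_left (Nat.mul_le_mul_right _ hab) 2)
  set f : ℕ → ℝ := fun p => if p ∈ PV α b N C then Real.log p else 0 with hf
  have hf0 : ∀ p, 0 ≤ f p := by
    intro p
    rw [hf]
    simp only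
    split_ifs
    · exact Real.log_natCast_nonneg p
    · exact le_rfl
  have hKK1 : K ≤ K ^ 2 - 1 := by
    have : K + 1 ≤ K ^ 2 := by nlinarith
    omega
  have hcell : ∀ i ∈ Ico K (K ^ 2 - 1), ((k : ℝ) / K) * (1 - 1 / (K : ℝ)) ^ 2 * (C * M) - C₀ * √(α : ℝ) * N ≤
      ∑ p ∈ Ioc (x i) (x (i + 1)), f p := by
    intro i hi
    rw [Finset.mem_Ico] at hi
    have hiK : (K : ℝ) ≤ i := by exact_mod_cast hi.1
    have hi2n : i + 2 ≤ K ^ 2 := by omega
    have hi2 : (i : ℝ) + 1 ≤ (K : ℝ) ^ 2 := by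
      have : i + 1 ≤ K ^ 2 := by omega
      exact_mod_cast this
    have hi0 : (0 : ℝ) < (i : ℝ) + 1 := by linarith
    obtain ⟨r, hr⟩ : ∃ r, r = (i + 1) * M := ⟨_, rfl⟩
    have hrr : (r : ℝ) = ((i : ℝ) + 1) * M := by rw [hr]; push_cast; ring
    have hrMN : r + M ≤ N := by
      rw [hr]
      calc (i + 1) * M + M = (i + 2) * M := by ring
        _ ≤ K ^ 2 * M := Nat.mul_le_mul_right _ hi2n
        _ ≤ N := hMK
    have hrN : r ≤ N := by omega
    have hr1N : r + 1 ≤ N := by omega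
    have hrposn : 0 < r := by rw [hr]; positivity
    have hr0 : (0 : ℝ) < r := by exact_mod_cast hrposn
    have hrlow : (N : ℝ) / (2 * K) ≤ r := by
      rw [hrr]
      calc (N : ℝ) / (2 * K) ≤ K * M := hKM
        _ ≤ ((i : ℝ) + 1) * M := by
            gcongr
            linarith
    have hilow : (N : ℝ) / (2 * K) ≤ i * M := by
      calc (N : ℝ) / (2 * K) ≤ K * M := hKM
        _ ≤ i * M := by gcongr
    obtain ⟨δ, hδ⟩ : ∃ δ : ℝ, δ = (C : ℝ) / (2 * α * ((r : ℝ) + 1)) / K := ⟨_, rfl⟩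
    have hδ0 : 0 < δ := by rw [hδ]; positivity
    have hKδ : (K : ℝ) * δ = (C : ℝ) / (2 * α * ((r : ℝ) + 1)) := by
      rw [hδ]
      field_simp
    have hκ : (C : ℝ) / (2 * α * ((r : ℝ) + 1)) ≤ 1 / 2 := by
      rw [div_le_iff₀ (by positivity)]
      have h1 : (C : ℝ) ≤ (N : ℝ) / (2 * K) := by
        rw [le_div_iff₀ (by positivity)]
        calc (C : ℝ) * (2 * K) ≤ (N : ℝ) ^ (9 / 10 : ℝ) * (N : ℝ) ^ (1 / 10 : ℝ) := by gcongr
          _ = N := by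
              rw [← Real.rpow_add hN0]
              norm_num
      have h2 : (r : ℝ) + 1 ≤ α * (r + 1) := le_mul_of_one_le_left (by positivity) hα1r
      linarith
    have hδhalf : δ ≤ 1 / 2 := by
      have h1 : δ ≤ K * δ := le_mul_of_one_le_left hδ0.le (by linarith)
      rw [hKδ] at h1
      linarith
    have hiM1 : M ≤ i * M := Nat.le_mul_of_pos_left _ (by omega)
    have hiM2 : i * M ≤ (i * M) ^ 2 := Nat.le_self_pow (by norm_num) _
    have hiM3 : (i * M) ^ 2 ≤ α * (i * M) ^ 2 := Nat.le_mul_of_pos_left _ (by omega)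
    have hX1 : X₁ ≤ α * (i * M) ^ 2 := by omega
    have hx2 : x₂ ≤ ((α * (i * M) ^ 2 : ℕ) : ℝ) := by
      have h2 : ⌈x₂⌉₊ ≤ α * (i * M) ^ 2 := by omega
      calc x₂ ≤ (⌈x₂⌉₊ : ℝ) := Nat.le_ceil _
        _ ≤ _ := by exact_mod_cast h2
    have hXX' : α * (i * M) ^ 2 ≤ α * r ^ 2 := by
      rw [hr]
      exact Nat.mul_le_mul_left _ (Nat.pow_le_pow_left (Nat.mul_le_mul_right _ (by omega)) 2)
    have hX'2 : α * r ^ 2 ≤ 2 * (α * (i * M) ^ 2) := by
      have h1 : r ^ 2 ≤ 2 * (i * M) ^ 2 := by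
        rw [hr, mul_pow, mul_pow, ← mul_assoc]
        apply Nat.mul_le_mul_right
        have : 3 ≤ i := by omega
        nlinarith
      calc α * r ^ 2 ≤ α * (2 * (i * M) ^ 2) := Nat.mul_le_mul_left _ h1
        _ = 2 * (α * (i * M) ^ 2) := by ring
    have hlowδ : ((α * (i * M) ^ 2 : ℕ) : ℝ) ^ (-1 / 4 + ε') ≤ δ := by
      have h1 := rpow_low N K (i * M) (ε / 2) ε' hNr (by linarith) hε'0 hε'1 hε'2 c1 hilow
      have h0 : ((α * (i * M) ^ 2 : ℕ) : ℝ) ^ (-1 / 4 + ε') ≤ (((i : ℝ) * M) ^ 2) ^ (-1 / 4 + ε') := by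
        apply Real.rpow_le_rpow_of_nonpos
        · have : (0 : ℝ) < i := by linarith
          positivity
        · push_cast
          exact le_mul_of_one_le_left (by positivity) hα1r
        · linarith
      refine h0.trans (h1.trans ?_)
      rw [hδ, div_div, div_le_div_iff₀ (by positivity) (by positivity)]
      have h2 : (r : ℝ) + 1 ≤ N := by exact_mod_cast hr1N
      have h3 : (N : ℝ) ^ (1 / 2 + ε) = (N : ℝ) ^ (-1 / 2 + ε / 2) * (N : ℝ) ^ (ε / 2) * N := by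
        nth_rewrite 4 [← Real.rpow_one (N : ℝ)]
        rw [← Real.rpow_add hN0, ← Real.rpow_add hN0]
        congr 1
        ring
      calc (N : ℝ) ^ (-1 / 2 + ε / 2) * (2 * α * (r + 1) * K)
          ≤ (N : ℝ) ^ (-1 / 2 + ε / 2) * (2 * (N : ℝ) ^ (ε / 2) * N * K) := by gcongr
        _ = (N : ℝ) ^ (1 / 2 + ε) * (2 * K) := by rw [h3]; ring
        _ ≤ C * (2 * K) := by gcongr
    have hT := fun t : ℝ => hX₁ (α * (i * M) ^ 2) (α * r ^ 2) hX1 hXX' hX'2 δ t hlowδ hδhalf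
    rw [hr] at hT
    have hq2 : 2 ≤ i * M := by omega
    have hcb := cell_bound k L K N C i M α b δ (1 / (2 * (K : ℝ) ^ 3)) C₀ Λ hα1 hMpos hi.1 (by omega) hkd
      (by rw [← hr]; exact hrN) hδ0 (by rw [← hr]; exact hKδ) (by rw [hKδ]; exact hκ) hΛL hbC
      (by
        rw [← hr]
        have h1 : (r : ℤ) + M ≤ N := by exact_mod_cast hrMN
        have h2 := neg_abs_le b
        have h3 : (0 : ℤ) ≤ r := by positivity
        have h4 : (0 : ℤ) < M := by exact_mod_cast hMpos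
        have h5 : (1 : ℤ) ≤ α := by exact_mod_cast hα1
        have h6 : (M : ℤ) * N ≤ (N : ℤ) ^ 2 - (r : ℤ) ^ 2 := by
          calc (M : ℤ) * N ≤ (N - r) * (N + r) :=
                mul_le_mul (by linarith) (by linarith) (by positivity) (by linarith)
            _ = _ := by ring
        have h7 : (0 : ℤ) ≤ (N : ℤ) ^ 2 - (r : ℤ) ^ 2 := le_trans (by positivity) h6
        have h8 : (N : ℤ) ^ 2 - (r : ℤ) ^ 2 ≤ α * ((N : ℤ) ^ 2 - (r : ℤ) ^ 2) := by
          have := mul_le_mul_of_nonneg_right h5 h7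
          linarith
        have h9 : -((M : ℤ) * N) ≤ b * N := by
          have h10 : (0 : ℤ) ≤ N := by positivity
          have h11 : -(M : ℤ) ≤ b := by linarith
          have := mul_le_mul_of_nonneg_right h11 h10
          linarith
        linarith)
      (by
        have h1 : (M : ℤ) ≤ ((i * M : ℕ) : ℤ) := by exact_mod_cast hiM1
        have h5 : (1 : ℤ) ≤ α := by exact_mod_cast hα1
        have h6 : (2 : ℤ) ≤ ((i * M : ℕ) : ℤ) := by exact_mod_cast hq2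
        have h7 : (1 : ℤ) + M ≤ ((i * M : ℕ) : ℤ) ^ 2 := by
          have h9 : 2 * ((i * M : ℕ) : ℤ) ≤ ((i * M : ℕ) : ℤ) ^ 2 := by
            rw [sq]
            exact mul_le_mul_of_nonneg_right h6 (by linarith)
          linarith
        have h8 : (0 : ℤ) < M := by exact_mod_cast hMpos
        calc (α : ℤ) + |b| ≤ α + M := by linarith
          _ ≤ α * (1 + M) := by
              have := mul_le_mul_of_nonneg_right h5 h8.le
              linarith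
          _ ≤ α * ((i * M : ℕ) : ℤ) ^ 2 := by gcongr)
      (by
        calc 4 = 2 ^ 2 := by norm_num
          _ ≤ (i * M) ^ 2 := Nat.pow_le_pow_left hq2 2)
      (by
        rw [← hr]
        -- b² ≤ 4 α² (2 r + 1)
        have h1 : (b : ℝ) ^ 2 ≤ 4 * (α : ℝ) ^ 2 * (2 * r + 1) := by
          have h2 : Λ * C ≤ (N : ℝ) / (16 * (K : ℝ) ^ 4) := by
            rw [le_div_iff₀ (by positivity)]
            calc Λ * C * (16 * (K : ℝ) ^ 4) = (16 * Λ * (K : ℝ) ^ 4) * C := by ring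
              _ ≤ (N : ℝ) ^ (1 / 10 : ℝ) * (N : ℝ) ^ (9 / 10 : ℝ) := by gcongr
              _ = N := by
                  rw [← Real.rpow_add hN0]
                  norm_num
          have h3 : (N : ℝ) / (16 * (K : ℝ) ^ 4) ≤ (N : ℝ) / (2 * K) := by
            apply div_le_div_of_nonneg_left hN0.le (by positivity)
            have h4 : (1 : ℝ) ≤ (K : ℝ) ^ 3 := one_le_pow₀ (by linarith)
            have h5 := mul_le_mul_of_nonneg_right h4 (show (0 : ℝ) ≤ 16 * (K : ℝ) by positivity)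
            have h6 : (K : ℝ) ^ 3 * (16 * K) = 16 * (K : ℝ) ^ 4 := by ring
            linarith
          have h4 : (r : ℝ) ≤ 4 * (α : ℝ) ^ 2 * (2 * r + 1) := by
            have h5 : (1 : ℝ) ≤ (α : ℝ) ^ 2 := one_le_pow₀ hα1r
            have h6 := mul_le_mul_of_nonneg_right h5 (show (0 : ℝ) ≤ 4 * (2 * r + 1) by positivity)
            linarith
          linarith
        exact_mod_cast h1)
      (by
        have h1 : (M : ℤ) ≤ N := by
          have : M ≤ N := by omega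
          exact_mod_cast this
        have h5 : (1 : ℤ) ≤ α := by exact_mod_cast hα1
        have h6 : (0 : ℤ) ≤ N := by positivity
        have h7 := mul_le_mul_of_nonneg_right h5 h6
        linarith)
      hT hC₀ hC₀0
    have hx2' : x₂ ≤ ((α * r ^ 2 : ℕ) : ℝ) := hx2.trans (by exact_mod_cast hXX')
    have hW := W_ge (1 / (4 * (K : ℝ) ^ 3)) (α * (i * M) ^ 2) (α * r ^ 2) (by positivity) (hx₂ _ hx2) (hx₂ _ hx2') hXX'
    rw [hr] at hW
    have hta := term_alg K M i C (∑ v ∈ Ioc (α * (i * M) ^ 2) (α * ((i + 1) * M) ^ 2), ArithmeticFunction.vonMangoldt v)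
      α k hα0 (by linarith) hM0 hA0 (Nat.cast_nonneg _) hiK hi2 (by
        have h1 : K ≤ (i + 1) * M := by
          calc K ≤ i := hi.1
            _ ≤ i + 1 := Nat.le_succ _
            _ ≤ (i + 1) * M := Nat.le_mul_of_pos_right _ hMpos
        exact_mod_cast h1) (by
        refine le_trans (le_of_eq ?_) hW
        push_cast
        ring)
    have hxe : x (i + 1) = α * ((i + 1) * M) ^ 2 := by rw [hx]
    have hxe2 : x i = α * (i * M) ^ 2 := by rw [hx]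
    rw [hxe, hxe2]
    refine le_trans ?_ hcb
    have e2 : (C : ℝ) / (2 * α * (((i : ℝ) + 1) * M + 1)) / K = δ := by rw [hδ, hrr]
    rw [e2] at hta
    have e3 : ((α * (i * M) ^ 2 : ℕ) : ℝ) = (α : ℝ) * ((i : ℝ) * M) ^ 2 := by push_cast; ring
    rw [e3]
    linarith
  -- summation over the cells
  have hsum : ((K : ℝ) ^ 2 - 1 - K) * (((k : ℝ) / K) * (1 - 1 / (K : ℝ)) ^ 2 * (C * M) - C₀ * √(α : ℝ) * N) ≤
      (2 * Real.log N + Real.log ((α : ℤ) : ℝ)) * ∑ c ∈ Icc 1 C, (PP α b (c : ℕ) N : ℝ) := by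
    calc ((K : ℝ) ^ 2 - 1 - K) * (((k : ℝ) / K) * (1 - 1 / (K : ℝ)) ^ 2 * (C * M) - C₀ * √(α : ℝ) * N)
        = ∑ i ∈ Ico K (K ^ 2 - 1), (((k : ℝ) / K) * (1 - 1 / (K : ℝ)) ^ 2 * (C * M) - C₀ * √(α : ℝ) * N) := by
          rw [Finset.sum_const, Nat.card_Ico, nsmul_eq_mul, Nat.cast_sub hKK1, Nat.cast_sub (by omega)]
          push_cast
          ring
      _ ≤ ∑ i ∈ Ico K (K ^ 2 - 1), ∑ p ∈ Ioc (x i) (x (i + 1)), f p := Finset.sum_le_sum hcell
      _ = ∑ p ∈ Ioc (x K) (x (K ^ 2 - 1)), f p := sum_Ioc_chain x hxmono f K (K ^ 2 - 1) hKK1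
      _ ≤ ∑ p ∈ PV α b N C, Real.log p := by
          rw [hf]
          simp only
          rw [← Finset.sum_filter]
          apply Finset.sum_le_sum_of_subset_of_nonneg
          · intro p hp
            rw [Finset.mem_filter] at hp
            exact hp.2
          · intro p _ _
            exact Real.log_natCast_nonneg p
      _ ≤ _ := log_PV α b N C ha (by omega)
  have hlogN : 0 < Real.log N := Real.log_pos (by
    have : 1 < N := by omega
    exact_mod_cast this)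
  have hfin := final_alg K L k C N M (C₀ * √(α : ℝ)) η hK3 hL0 hK5 hKη hkr hA0 hN0.le hMK2 hM0.le (by positivity) hη
    (by rw [div_le_iff₀ hη] at c3; linarith)
    (by
      rw [div_le_iff₀ hη] at c4
      calc 8 * ((K : ℝ) ^ 2 * (C₀ * √(α : ℝ))) ≤ (N : ℝ) ^ (1 / 2 : ℝ) * η := c4
        _ ≤ C * η := by gcongr
        _ = η * C := by ring)
  have hall := hfin.trans hsum
  have hlogα : 0 ≤ Real.log ((α : ℤ) : ℝ) := Real.log_nonneg (by push_cast; exact hα1r)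
  obtain ⟨S, hS⟩ : ∃ S : ℝ, S = ∑ c ∈ Icc 1 C, (PP α b (c : ℕ) N : ℝ) := ⟨_, rfl⟩
  rw [← hS] at hall ⊢
  have hl : Real.log ((α : ℤ) : ℝ) ≤ η * Real.log N := by
    rw [div_le_iff₀ hη] at c8
    push_cast
    linarith
  have hCN : 0 ≤ (C : ℝ) * N := by positivity
  -- (1 - η) C N (2 log N + log α) ≤ (1 - η/2) C N 2 log N ≤ S (2 log N + log α) 2 log N
  have h1 : (1 - η) * (C * N / (2 * Real.log N)) * (2 * Real.log N + Real.log ((α : ℤ) : ℝ)) ≤
      (1 - η / 2) * (C * N) := by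
    have h2 : (1 - η) * (2 * Real.log N + Real.log ((α : ℤ) : ℝ)) ≤ (1 - η / 2) * (2 * Real.log N) := by
      have h4 : 0 ≤ η * Real.log ((α : ℤ) : ℝ) := by positivity
      have h5 : (1 - η) * (2 * Real.log N + Real.log ((α : ℤ) : ℝ)) =
          (1 - η / 2) * (2 * Real.log N) - η * Real.log N + Real.log ((α : ℤ) : ℝ) -
            η * Real.log ((α : ℤ) : ℝ) := by ring
      rw [h5]
      linarith
    have h3 : (1 - η) * (C * N / (2 * Real.log N)) * (2 * Real.log N + Real.log ((α : ℤ) : ℝ)) =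
        ((1 - η) * (2 * Real.log N + Real.log ((α : ℤ) : ℝ))) * (C * N) / (2 * Real.log N) := by
      ring
    rw [h3, div_le_iff₀ (by positivity)]
    calc ((1 - η) * (2 * Real.log N + Real.log ((α : ℤ) : ℝ))) * (C * N) ≤
          ((1 - η / 2) * (2 * Real.log N)) * (C * N) := by gcongr
      _ = _ := by ring
  have h2 : 0 < 2 * Real.log N + Real.log ((α : ℤ) : ℝ) := by positivity
  have h3 := h1.trans hall
  rw [mul_comm (2 * Real.log N + Real.log ((α : ℤ) : ℝ)) S] at h3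
  exact le_of_mul_le_mul_right h3 h2

end Run7.h545.HP
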