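import Mathlib
import Pool.Agent.Run7.h545.HP.Stm
import Pool.Agent.Run7.h757.BP.Fin
import Pool.Agent.N791.U.X8U

/-!
Project HP (helper545): a positive proportion of the `c ≤ C` for `b² ≤ Λ C`, assembly.
-/

set_option autoImplicit false

namespace Run7.h545.HP

open Finset Filter Topology
open Pool.Agent.N792
open Run7.h757.BP.Fin (rpow_ge_log numeric)

/-- the conclusion for one `c` -/
def GoodC (a b : ℤ) (η : ℝ) (N c : ℕ) : Prop :=
  Admissible a b c ∧ ∃ S : ℝ, 0 < S ∧ Tendsto (fun y => partialC a b c y) atTop (𝓝 S) ∧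
    (1 - η) * (eps a b * S * gcdProd a b) * (N / (2 * Real.log N)) ≤ PP a b c N

lemma PP_le (a b c : ℤ) (N : ℕ) : (PP a b c N : ℝ) ≤ N := by
  unfold PP
  have := card_filter_le (Icc 1 N) (fun n : ℕ => (fv a b c n).toNat.Prime)
  rw [Nat.card_Icc, Nat.add_sub_cancel] at this
  exact_mod_cast this

/-- a fixed prime factor makes the product zero -/
lemma Vc_zero_of_dvd (a b c : ℤ) (w p : ℕ) (hp : p.Prime) (hpw : p ≤ w) (h : ∀ r : ℕ, (p : ℤ) ∣ fv a b c r) :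
    Vc a b c w = 0 := by
  unfold Vc
  apply prod_eq_zero (i := p)
  · rw [mem_filter, mem_Icc]
    exact ⟨⟨hp.one_lt.le, hpw⟩, hp⟩
  · have h1 : rho a b c p = p := by
      unfold rho
      rw [filter_true_of_mem (fun r _ => h r), card_range]
    rw [h1]
    have : (p : ℝ) ≠ 0 := by exact_mod_cast hp.ne_zero
    rw [div_self this, sub_self]

lemma Vc_zero (a b c : ℤ) (ha : 0 < a) (w : ℕ) (hw : a.toNat + 2 ≤ w) (hadm : ¬ Admissible a b c)
    (hsq : ¬ IsSquare (b ^ 2 - 4 * a * c)) : Vc a b c w = 0 := by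
  have h1 : (∃ d : ℤ, d ∣ a ∧ d ∣ b ∧ d ∣ c ∧ ¬ IsUnit d) ∨ ((2 : ℤ) ∣ a + b ∧ (2 : ℤ) ∣ c) := by
    by_contra hcon
    push Not at hcon
    apply hadm
    refine ⟨ha, fun d h1 h2 h3 => ?_, fun h => ?_, hsq⟩
    · exact hcon.1 d h1 h2 h3
    · exact hcon.2 h.1 h.2
  rcases h1 with ⟨d, d1, d2, d3, d4⟩ | ⟨h2, h3⟩
  · have hd : d.natAbs ≠ 1 := by
      intro hcon
      exact d4 (Int.isUnit_iff_natAbs_eq.2 hcon)
    obtain ⟨p, hp, hpd⟩ := Nat.exists_prime_and_dvd hd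
    have hpd' : (p : ℤ) ∣ d := Int.natCast_dvd.2 hpd
    have hpa : (p : ℤ) ∣ a := hpd'.trans d1
    have hpa' : p ≤ a.toNat := by
      have h5 := Int.le_of_dvd ha hpa
      omega
    apply Vc_zero_of_dvd a b c w p hp (by omega)
    intro r
    unfold fv
    exact dvd_add (dvd_add (hpa.mul_right _) ((hpd'.trans d2).mul_right _)) (hpd'.trans d3)
  · apply Vc_zero_of_dvd a b c w 2 Nat.prime_two (by omega)
    intro r
    unfold fv
    have h4 : ∃ k : ℤ, (r : ℤ) = 2 * k ∨ (r : ℤ) = 2 * k + 1 := by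
      rcases Int.even_or_odd' (r : ℤ) with ⟨k, hk | hk⟩
      · exact ⟨k, Or.inl hk⟩
      · exact ⟨k, Or.inr hk⟩
    obtain ⟨k, hk⟩ := h4
    obtain ⟨s, hs⟩ := h2
    obtain ⟨t, ht⟩ := h3
    push_cast
    have hb : b = 2 * s - a := by linarith
    rw [ht, hb]
    rcases hk with hk | hk
    · rw [hk]
      exact ⟨a * (2 * k ^ 2) + (2 * s - a) * k + t, by ring⟩
    · rw [hk]
      exact ⟨a * (2 * k ^ 2 + 2 * k) + (2 * s - a) * k + s + t, by ring⟩

open Classical in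
/-- few `c` with a square discriminant -/
lemma sq_count (a b : ℤ) (ha : 0 < a) (C : ℕ) :
    #((Icc 1 C).filter (fun c : ℕ => IsSquare (b ^ 2 - 4 * a * (c : ℤ)))) ≤ b.natAbs + 1 := by
  have h1 : ∀ c ∈ (Icc 1 C).filter (fun c : ℕ => IsSquare (b ^ 2 - 4 * a * (c : ℤ))),
      ∃ s ∈ range (b.natAbs + 1), b ^ 2 - 4 * a * (c : ℤ) = (s : ℤ) ^ 2 := by
    intro c hc
    rw [mem_filter, mem_Icc] at hc
    obtain ⟨s, hs⟩ := hc.2
    refine ⟨s.natAbs, ?_, ?_⟩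
    · rw [mem_range]
      have h2 : s ^ 2 ≤ b ^ 2 := by
        have h3 : 0 ≤ 4 * a * (c : ℤ) := by positivity
        nlinarith
      have h4 : s.natAbs ≤ b.natAbs := Int.natAbs_le_iff_sq_le.2 h2
      omega
    · rw [hs, Int.natCast_natAbs, sq_abs]
      ring
  choose! g hg1 hg2 using h1
  calc #((Icc 1 C).filter (fun c : ℕ => IsSquare (b ^ 2 - 4 * a * (c : ℤ)))) ≤ #(range (b.natAbs + 1)) := by
        apply card_le_card_of_injOn g
        · intro c hc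
          exact hg1 c hc
        · intro c hc c' hc' h
          have e1 := hg2 c hc
          have e2 := hg2 c' hc'
          rw [h, ← e2] at e1
          have e3 : 4 * a * (c : ℤ) = 4 * a * (c' : ℤ) := by linarith
          have e4 : (c : ℤ) = c' := mul_left_cancel₀ (by positivity) e3
          exact_mod_cast e4
    _ = b.natAbs + 1 := card_range _

open Classical in
/-- the range `N^(1/2+ε) ≤ C ≤ N^(9/10)` -/
theorem mid (a : ℤ) (ha : 0 < a) (Λ : ℝ) (hΛ : 1 ≤ Λ) (hFM : S_FM a Λ) (hUP : S_UP a Λ) (hSQ : S_SQ a) (hAV : S_AV a Λ)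
    (η : ℝ) (hη : 0 < η) (hη1 : η ≤ 1 / 2) :
    ∃ c : ℝ, 0 < c ∧ ∀ ε : ℝ, 0 < ε → ∃ N0 : ℕ, ∀ N : ℕ, N0 ≤ N → ∀ b : ℤ, ∀ C : ℕ, (b : ℝ) ^ 2 ≤ Λ * C →
      (N : ℝ) ^ (1 / 2 + ε) ≤ C → (C : ℝ) ≤ (N : ℝ) ^ (9 / 10 : ℝ) →
      c * C ≤ (#((Icc 1 C).filter (fun c => GoodC a b η N c)) : ℝ) := by
  obtain ⟨C1, hC1, κ, hκ, hκ1, NU, hUP⟩ := hUP
  obtain ⟨C3, hC3, NS, hSQ⟩ := hSQ 36
  obtain ⟨C2, hC2⟩ : ∃ C2 : ℝ, C2 = 2 * C1 / κ := ⟨_, rfl⟩
  have hC20 : 0 < C2 := by rw [hC2]; positivity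
  obtain ⟨θ, hθ⟩ : ∃ θ : ℝ, θ = η / 16 := ⟨_, rfl⟩
  have hθ0 : 0 < θ := by rw [hθ]; positivity
  refine ⟨η ^ 2 / (64 * C2 ^ 2 * C3), by positivity, fun ε hε => ?_⟩
  obtain ⟨NF, hFM⟩ := hFM ε θ hε hθ0
  obtain ⟨NA, hAV⟩ := hAV 36 θ hθ0
  obtain ⟨NX, hX8⟩ := Pool.Agent.N791.U.x8U a ha Λ hΛ 3 36
  obtain ⟨M2, hM2⟩ := eventually_atTop.1 (rpow_ge_log κ hκ 36 1 one_pos)
  obtain ⟨M3, hM3⟩ := eventually_atTop.1 (rpow_ge_log (1 / 4) (by norm_num) 1 (C1 / θ) (by positivity))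
  obtain ⟨M4, hM4⟩ := eventually_atTop.1 ((Real.tendsto_log_atTop.comp tendsto_natCast_atTop_atTop).eventually_ge_atTop
    (2 + a.toNat + 2 / θ))
  obtain ⟨M5, hM5⟩ := eventually_atTop.1 (rpow_ge_log (1 / 4) (by norm_num) 1 (4 * Λ / θ) (by positivity))
  refine ⟨NU + NS + NF + NA + NX + M2 + M3 + M4 + M5 + 10, fun N hN b A hbA hA1 hA2 => ?_⟩
  have g2 := hM2 N (by omega)
  have g3 := hM3 N (by omega)
  have g4 := hM4 N (by omega)
  have g5 := hM5 N (by omega)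
  simp only [Function.comp] at g4
  rw [one_mul] at g2
  rw [pow_one] at g3 g5
  obtain ⟨L, hL⟩ : ∃ L : ℝ, L = Real.log N := ⟨_, rfl⟩
  rw [← hL] at g2 g3 g4 g5
  have hNR : (10 : ℝ) ≤ N := by exact_mod_cast (by omega : 10 ≤ N)
  have hN0 : (0 : ℝ) < N := by linarith
  have hθi : 0 < 2 / θ := by positivity
  have hat0 : (0 : ℝ) ≤ (a.toNat : ℝ) := Nat.cast_nonneg _
  have hL2 : 2 ≤ L := by linarith
  have hLθ : 2 / θ ≤ L := by linarith
  have hL0 : 0 < L := by linarith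
  have hL3 : 1 / L ^ 3 ≤ θ := by
    have h1 : 2 / θ ≤ L ^ 3 := by
      have : L ≤ L ^ 3 := le_self_pow₀ (by linarith) (by norm_num)
      linarith
    rw [div_le_iff₀ (by positivity)]
    rw [div_le_iff₀ hθ0] at h1
    linarith
  -- A
  have hAhalf : (N : ℝ) ^ (1 / 2 : ℝ) ≤ A :=
    (Real.rpow_le_rpow_of_exponent_le (by linarith) (by linarith)).trans hA1
  have hA0 : (0 : ℝ) < A := lt_of_lt_of_le (by positivity) hAhalf
  have hAN : A ≤ N := by
    have h1 : (A : ℝ) ≤ (N : ℝ) ^ (1 : ℝ) :=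
      hA2.trans (Real.rpow_le_rpow_of_exponent_le (by linarith) (by norm_num))
    rw [Real.rpow_one] at h1
    exact_mod_cast h1
  have hANr : (A : ℝ) ≤ N := by exact_mod_cast hAN
  have hbN : (b : ℝ) ^ 2 ≤ Λ * N := hbA.trans (by gcongr)
  -- levels
  obtain ⟨J, hJ1, hJ2, hJ3⟩ := hUP N (by omega)
  obtain ⟨Jw, hw1, hw2⟩ := exists_level (L ^ 36) (by
    have : L ≤ L ^ 36 := le_self_pow₀ (by linarith) (by norm_num)
    linarith)
  obtain ⟨z, hz⟩ : ∃ z : ℕ, z = 2 ^ 2 ^ J := ⟨_, rfl⟩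
  obtain ⟨w, hw⟩ : ∃ w : ℕ, w = 2 ^ 2 ^ Jw := ⟨_, rfl⟩
  have hSQ' := hSQ N (by omega) b A Jw hAhalf hAN (by rw [← hL]; exact hw1)
  have hAV' := hAV N (by omega) b A Jw hbA hAhalf hAN (by rw [← hL]; exact hw1)
  rw [← hw] at hw1 hw2 hSQ' hAV'
  rw [← hz] at hJ1 hJ2 hJ3
  have hw18 : L ^ (3 * 3 + 9) ≤ w := by
    have h1 : (L ^ 18) ^ 2 ≤ (w : ℝ) ^ 2 := by
      refine le_trans (le_of_eq (by ring)) hw2
    exact le_of_sq_le_sq h1 (Nat.cast_nonneg _)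
  have hwz : w ≤ z := by
    have h1 : (w : ℝ) ≤ z := hw1.trans (g2.trans hJ1)
    exact_mod_cast h1
  have haw : a.toNat + 2 ≤ w := by
    have h1 : L ≤ L ^ (3 * 3 + 9) := le_self_pow₀ (by linarith) (by norm_num)
    have h2 : ((a.toNat + 2 : ℕ) : ℝ) ≤ w := by
      push_cast
      linarith
    exact_mod_cast h2
  obtain ⟨Ex0, hE1, hE2, hE3⟩ := hX8 N (by omega) b hbN A hAhalf hAN w z (by rw [← hL]; exact hw18)
    (by rw [← hL]; exact hw1) hwz (hJ2.trans (Real.rpow_le_rpow_of_exponent_le (by linarith) (by norm_num)))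
  rw [← hL] at hE2
  -- the exceptional set
  obtain ⟨Sq, hSq⟩ : ∃ Sq : Finset ℕ, Sq = (Icc 1 A).filter (fun c : ℕ => IsSquare (b ^ 2 - 4 * a * (c : ℤ))) := ⟨_, rfl⟩
  obtain ⟨Ex, hEx⟩ : ∃ Ex : Finset ℕ, Ex = Ex0 ∪ Sq := ⟨_, rfl⟩
  have hExI : Ex ⊆ Icc 1 A := by
    rw [hEx]
    apply union_subset hE1
    rw [hSq]
    exact filter_subset _ _
  have hExc : (#Ex : ℝ) ≤ θ * (A / L) := by
    have h1 : (#Ex : ℝ) ≤ #Ex0 + #Sq := by
      rw [hEx]
      exact_mod_cast card_union_le _ _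
    have h2 : (#Sq : ℝ) ≤ b.natAbs + 1 := by
      rw [hSq]
      exact_mod_cast sq_count a b ha A
    have h3 : (b.natAbs : ℝ) ≤ Λ * √(A : ℝ) := by
      have h4 : ((b.natAbs : ℝ)) ^ 2 = (b : ℝ) ^ 2 := by
        rw [Nat.cast_natAbs]
        push_cast
        exact sq_abs _
      have h5 : (b.natAbs : ℝ) ^ 2 ≤ (Λ * √(A : ℝ)) ^ 2 := by
        rw [h4, mul_pow, Real.sq_sqrt hA0.le]
        have : Λ ≤ Λ ^ 2 := by nlinarith
        calc (b : ℝ) ^ 2 ≤ Λ * A := hbA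
          _ ≤ Λ ^ 2 * A := by gcongr
      exact le_of_sq_le_sq h5 (by positivity)
    have hsA : (N : ℝ) ^ (1 / 4 : ℝ) ≤ √(A : ℝ) := by
      have h4 : ((N : ℝ) ^ (1 / 4 : ℝ)) ^ 2 ≤ A := by
        rw [← Real.rpow_natCast, ← Real.rpow_mul hN0.le]
        norm_num
        norm_num at hAhalf
        exact hAhalf
      exact Real.le_sqrt_of_sq_le h4
    have hsA1 : 1 ≤ √(A : ℝ) := by
      refine le_trans ?_ hsA
      apply Real.one_le_rpow (by linarith) (by norm_num)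
    have hsA2 : √(A : ℝ) * √(A : ℝ) = A := Real.mul_self_sqrt hA0.le
    have h6 : (b.natAbs : ℝ) + 1 ≤ θ / 2 * (A / L) := by
      have h7 : 4 * Λ * L ≤ θ * √(A : ℝ) := by
        rw [div_mul_eq_mul_div, div_le_iff₀ hθ0] at g5
        calc 4 * Λ * L ≤ (N : ℝ) ^ (1 / 4 : ℝ) * θ := g5
          _ ≤ √(A : ℝ) * θ := by gcongr
          _ = _ := by ring
      have h8 : (b.natAbs : ℝ) + 1 ≤ 2 * Λ * √(A : ℝ) := by nlinarith
      refine h8.trans ?_
      rw [mul_div_assoc', le_div_iff₀ hL0]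
      calc 2 * Λ * √(A : ℝ) * L = (4 * Λ * L) * √(A : ℝ) / 2 := by ring
        _ ≤ (θ * √(A : ℝ)) * √(A : ℝ) / 2 := by gcongr
        _ = θ / 2 * (√(A : ℝ) * √(A : ℝ)) := by ring
        _ = θ / 2 * A := by rw [hsA2]
    have h9 : (A : ℝ) / L ^ 3 ≤ θ / 2 * (A / L) := by
      have h10 : 1 / L ^ 2 ≤ θ / 2 := by
        have h11 : 2 / θ ≤ L ^ 2 := hLθ.trans (le_self_pow₀ (by linarith) (by norm_num))
        rw [div_le_iff₀ (by positivity)]
        rw [div_le_iff₀ hθ0] at h11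
        linarith
      calc (A : ℝ) / L ^ 3 = 1 / L ^ 2 * (A / L) := by field_simp
        _ ≤ θ / 2 * (A / L) := by gcongr
    linarith
  -- the function F
  obtain ⟨F, hF⟩ : ∃ F : ℕ → ℝ, F = fun c => Vc a b (c : ℕ) w / V1 w := ⟨_, rfl⟩
  have hVw : 0 < V1 w := V1_pos w
  have hVz : 0 < V1 z := V1_pos z
  have hF0 : ∀ c, 0 ≤ F c := by
    intro c
    rw [hF]
    exact div_nonneg (Mtm.Vc_bd a b (c : ℕ) w).1 hVw.le
  have hFa : ∀ c : ℕ, Vc a b (c : ℕ) w / V1 w = F c := fun c => by rw [hF]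
  simp only [hFa] at hSQ' hAV'
  have hz2 : 2 ≤ z := by
    rw [hz]
    calc 2 = 2 ^ 1 := (pow_one 2).symm
      _ ≤ 2 ^ 2 ^ J := Nat.pow_le_pow_right (by norm_num) Nat.one_le_two_pow
  have hzR : (2 : ℝ) ≤ z := by exact_mod_cast hz2
  have hlogz : κ * L ≤ Real.log z := by
    have h1 := Real.log_le_log (by positivity) hJ1
    rw [Real.log_rpow hN0, ← hL] at h1
    exact h1
  have hV1z : V1 z ≤ 1 / (κ * L) :=
    (V1_le z hz2).trans (one_div_le_one_div_of_le (by positivity) hlogz)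
  obtain ⟨NL, hNL⟩ : ∃ NL : ℝ, NL = (N : ℝ) / L := ⟨_, rfl⟩
  have hNL0 : 0 < NL := by rw [hNL]; positivity
  have hsmall : C1 * (N : ℝ) ^ (3 / 4 : ℝ) ≤ θ * NL := by
    have h8 : (N : ℝ) = (N : ℝ) ^ (3 / 4 : ℝ) * (N : ℝ) ^ (1 / 4 : ℝ) := by
      rw [← Real.rpow_add hN0]
      norm_num
    rw [hNL, mul_div_assoc', le_div_iff₀ hL0]
    have h9 : C1 * L ≤ θ * (N : ℝ) ^ (1 / 4 : ℝ) := by
      rw [div_mul_eq_mul_div, div_le_iff₀ hθ0] at g3
      linarith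
    calc C1 * (N : ℝ) ^ (3 / 4 : ℝ) * L = (N : ℝ) ^ (3 / 4 : ℝ) * (C1 * L) := by ring
      _ ≤ (N : ℝ) ^ (3 / 4 : ℝ) * (θ * (N : ℝ) ^ (1 / 4 : ℝ)) := by gcongr
      _ = θ * ((N : ℝ) ^ (3 / 4 : ℝ) * (N : ℝ) ^ (1 / 4 : ℝ)) := by ring
      _ = θ * N := by rw [← h8]
  -- upper bound
  have hVz2 : ∀ c ∈ Icc 1 A, c ∉ Ex → Vc a b (c : ℕ) z ≤ 2 * (F c * V1 z) := by
    intro c hc hcE
    obtain ⟨h1, -⟩ := hE3 c hc (fun h => hcE (by rw [hEx]; exact mem_union_left _ h))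
    have h2 := (abs_le.1 h1).2
    rw [← hL] at h2
    have hVc0 : 0 ≤ Vc a b (c : ℕ) w := (Mtm.Vc_bd a b (c : ℕ) w).1
    have h3 : Vc a b (c : ℕ) w * V1 z / L ^ 3 ≤ Vc a b (c : ℕ) w * V1 z := by
      apply div_le_self (by positivity)
      exact one_le_pow₀ (by linarith)
    rw [← hFa]
    have h5 : Vc a b (c : ℕ) z * V1 w ≤ (2 * (Vc a b (c : ℕ) w / V1 w * V1 z)) * V1 w := by
      have h6 : (2 * (Vc a b (c : ℕ) w / V1 w * V1 z)) * V1 w = 2 * (Vc a b (c : ℕ) w * V1 z) := by field_simp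
      rw [h6]
      linarith
    exact le_of_mul_le_mul_right h5 hVw
  have hup : ∀ c ∈ Icc 1 A, c ∉ Ex → (PP a b (c : ℕ) N : ℝ) ≤ C2 * NL * F c + θ * NL := by
    intro c hc hcE
    have h4 := hVz2 c hc hcE
    have h5 := hJ3 b hbN c
    have h6 : C1 * N * Vc a b (c : ℕ) z ≤ C2 * NL * F c := by
      calc C1 * N * Vc a b (c : ℕ) z ≤ C1 * N * (2 * (F c * (1 / (κ * L)))) := by
            have := hF0 c
            have h7 : Vc a b (c : ℕ) z ≤ 2 * (F c * (1 / (κ * L))) := by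
              refine h4.trans ?_
              gcongr
            gcongr
        _ = C2 * NL * F c := by
            rw [hC2, hNL]
            field_simp
    have h7 : C1 * (N : ℝ) ^ (3 / 4 : ℝ) ≤ θ * NL := hsmall
    linarith
  -- bad c
  have hbad : ∀ c ∈ Icc 1 A, c ∉ Ex → ¬ GoodC a b η N c →
      (PP a b (c : ℕ) N : ℝ) ≤ (1 - η) * (1 / 2) * (1 + θ) ^ 2 * NL * F c + θ * NL := by
    intro c hc hcE hng
    have hη2 : 0 ≤ 1 - η := by linarith
    have hmain0 : 0 ≤ (1 - η) * (1 / 2) * (1 + θ) ^ 2 * NL * F c := by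
      have := hF0 c
      positivity
    have hcE0 : c ∉ Ex0 := fun h => hcE (by rw [hEx]; exact mem_union_left _ h)
    have hcSq : ¬ IsSquare (b ^ 2 - 4 * a * (c : ℤ)) := by
      intro h
      apply hcE
      rw [hEx]
      apply mem_union_right
      rw [hSq, mem_filter]
      exact ⟨hc, h⟩
    by_cases hadm : Admissible a b c
    · obtain ⟨-, h2⟩ := hE3 c hc hcE0
      obtain ⟨S, hS0, hS1, hS2⟩ := h2 hadm
      rw [hFa, ← hL] at hS2
      have hSF : eps a b * S * gcdProd a b ≤ (1 + θ) * F c := by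
        have h3 := (abs_le.1 hS2).2
        have h4 : F c / L ^ 3 ≤ θ * F c := by
          calc F c / L ^ 3 = 1 / L ^ 3 * F c := by ring
            _ ≤ θ * F c := mul_le_mul_of_nonneg_right hL3 (hF0 c)
        linarith
      have hlt : (PP a b c N : ℝ) < (1 - η) * (eps a b * S * gcdProd a b) * (N / (2 * Real.log N)) := by
        by_contra hcon
        push Not at hcon
        exact hng ⟨hadm, S, hS0, hS1, hcon⟩
      have e1 : (N : ℝ) / (2 * Real.log N) = NL / 2 := by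
        rw [hNL, ← hL]
        field_simp
      rw [e1] at hlt
      have h5 : (1 - η) * (eps a b * S * gcdProd a b) * (NL / 2) ≤ (1 - η) * (1 / 2) * (1 + θ) ^ 2 * NL * F c := by
        calc (1 - η) * (eps a b * S * gcdProd a b) * (NL / 2) ≤ (1 - η) * ((1 + θ) * F c) * (NL / 2) := by gcongr
          _ = (1 - η) * (1 / 2) * (1 + θ) ^ 1 * NL * F c := by ring
          _ ≤ (1 - η) * (1 / 2) * (1 + θ) ^ 2 * NL * F c := by
              have h6 : (1 + θ) ^ 1 ≤ (1 + θ) ^ 2 := pow_le_pow_right₀ (by linarith) (by norm_num)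
              have := hF0 c
              gcongr
      have h7 : 0 ≤ θ * NL := by positivity
      linarith
    · have h1 : Vc a b c w = 0 := Vc_zero a b c ha w haw hadm hcSq
      have h2 : F c = 0 := by rw [← hFa, h1, zero_div]
      have h4 := hVz2 c hc hcE
      rw [h2] at h4
      have h5 := hJ3 b hbN c
      have h6 : C1 * N * Vc a b (c : ℕ) z ≤ 0 := by
        have h7 : Vc a b (c : ℕ) z ≤ 0 := by linarith
        have h8 : 0 ≤ C1 * (N : ℝ) := by positivity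
        nlinarith
      linarith
  -- the sets
  obtain ⟨G, hG⟩ : ∃ G : Finset ℕ, G = (Icc 1 A).filter (fun c => GoodC a b η N c) := ⟨_, rfl⟩
  rw [← hG]
  have hsplit : ∑ c ∈ Icc 1 A, (PP a b (c : ℕ) N : ℝ) ≤ ∑ c ∈ Ex, (PP a b (c : ℕ) N : ℝ) +
      ∑ c ∈ Icc 1 A, ((1 - η) * (1 / 2) * (1 + θ) ^ 2 * NL * F c) + ∑ c ∈ G, (C2 * NL * F c) + θ * (A * NL) := by
    have hη2 : 0 ≤ 1 - η := by linarith
    have h1 : ∀ c ∈ Icc 1 A, (PP a b (c : ℕ) N : ℝ) ≤ (if c ∈ Ex then (PP a b (c : ℕ) N : ℝ) else 0) +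
        ((1 - η) * (1 / 2) * (1 + θ) ^ 2 * NL * F c) + (if c ∈ G then C2 * NL * F c else 0) + θ * NL := by
      intro c hc
      have hp1 : 0 ≤ (1 - η) * (1 / 2) * (1 + θ) ^ 2 * NL * F c := by
        have := hF0 c
        positivity
      have hp2 : 0 ≤ C2 * NL * F c := by
        have := hF0 c
        positivity
      have hp3 : 0 ≤ θ * NL := by positivity
      by_cases hcE : c ∈ Ex
      · rw [if_pos hcE]
        split_ifs <;> linarith
      · rw [if_neg hcE]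
        by_cases hcG : GoodC a b η N c
        · rw [if_pos (by rw [hG, mem_filter]; exact ⟨hc, hcG⟩)]
          have := hup c hc hcE
          linarith
        · have := hbad c hc hcE hcG
          split_ifs <;> linarith
    refine (sum_le_sum h1).trans ?_
    rw [sum_add_distrib, sum_add_distrib, sum_add_distrib, sum_const, Nat.card_Icc, nsmul_eq_mul, Nat.add_sub_cancel]
    have e1 : ∑ c ∈ Icc 1 A, (if c ∈ Ex then (PP a b (c : ℕ) N : ℝ) else 0) = ∑ c ∈ Ex, (PP a b (c : ℕ) N : ℝ) := by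
      rw [← sum_filter]
      congr 1
      ext c
      rw [mem_filter]
      exact ⟨fun h => h.2, fun h => ⟨hExI h, h⟩⟩
    have e2 : ∑ c ∈ Icc 1 A, (if c ∈ G then C2 * NL * F c else 0) = ∑ c ∈ G, (C2 * NL * F c) := by
      rw [← sum_filter]
      congr 1
      ext c
      rw [mem_filter]
      refine ⟨fun h => h.2, fun h => ⟨?_, h⟩⟩
      rw [hG, mem_filter] at h
      exact h.1
    rw [e1, e2]
    apply le_of_eq
    ring
  have hExs : ∑ c ∈ Ex, (PP a b (c : ℕ) N : ℝ) ≤ θ * (A * NL) := by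
    calc ∑ c ∈ Ex, (PP a b (c : ℕ) N : ℝ) ≤ ∑ _c ∈ Ex, (N : ℝ) := sum_le_sum fun c _ => PP_le a b c N
      _ = #Ex * N := by rw [sum_const, nsmul_eq_mul]
      _ ≤ (θ * (A / L)) * N := by gcongr
      _ = θ * (A * NL) := by rw [hNL]; field_simp
  obtain ⟨t, ht⟩ : ∃ t : ℝ, t = η / (8 * C2 * C3) := ⟨_, rfl⟩
  have ht0 : 0 < t := by rw [ht]; positivity
  have hGF : ∑ c ∈ G, F c ≤ #G / (2 * t) + t / 2 * (C3 * A) := by
    have h1 : ∀ c ∈ G, F c ≤ 1 / (2 * t) + t / 2 * F c ^ 2 := by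
      intro c _
      have h2 : 0 ≤ (t * F c - 1) ^ 2 := sq_nonneg _
      have h3 : F c * (2 * t) ≤ (1 / (2 * t) + t / 2 * F c ^ 2) * (2 * t) := by
        have e3 : (1 / (2 * t) + t / 2 * F c ^ 2) * (2 * t) = 1 + t ^ 2 * F c ^ 2 := by field_simp
        rw [e3]
        nlinarith
      exact le_of_mul_le_mul_right h3 (by positivity)
    calc ∑ c ∈ G, F c ≤ ∑ c ∈ G, (1 / (2 * t) + t / 2 * F c ^ 2) := sum_le_sum h1
      _ = #G * (1 / (2 * t)) + t / 2 * ∑ c ∈ G, F c ^ 2 := by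
          rw [sum_add_distrib, sum_const, nsmul_eq_mul, mul_sum]
      _ ≤ #G * (1 / (2 * t)) + t / 2 * (C3 * A) := by
          have h2 : ∑ c ∈ G, F c ^ 2 ≤ ∑ c ∈ Icc 1 A, F c ^ 2 := by
            apply sum_le_sum_of_subset_of_nonneg
            · rw [hG]; exact filter_subset _ _
            · intro c _ _; positivity
          have h3 := h2.trans hSQ'
          gcongr
      _ = _ := by ring
  have hFMN := hFM N (by omega) b A hbA hA1 hA2
  have e4 : (A : ℝ) * N / (2 * Real.log N) = A * NL / 2 := by rw [hNL, ← hL]; field_simp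
  rw [e4] at hFMN
  refine numeric hη hη1 hθ hC20 (by linarith) ht hNL0 hA0 hFMN hGF ?_
  refine hsplit.trans ?_
  rw [← mul_sum, ← mul_sum]
  have h1 : (1 - η) * (1 / 2) * (1 + θ) ^ 2 * NL * ∑ c ∈ Icc 1 A, F c ≤ (1 - η) * (1 / 2) * (1 + θ) ^ 2 * NL * ((1 + θ) * A) := by
    have hη2 : 0 ≤ 1 - η := by linarith
    gcongr
  linarith

end Run7.h545.HP
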