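import Mathlib
import Pool.Agent.Run7.h545.HP.Mid
import Pool.Agent.Run7.h545.HP.FMm
import Pool.Agent.Run7.h973.HP.UP
import Pool.Agent.Run7.h973.HP.SQ
import Pool.Agent.Run7.h973.HP.AV
import Pool.Agent.Run7.h994.BPD.Tri
import Pool.Agent.Run7.h462.BPD.Bil
import Pool.Agent.Run7.h462.BPD.Ti
import Pool.Agent.Run7.h462.BPD.Tii
import Pool.Agent.Run7.h462.BPD.Spc
import Pool.Agent.Run7.h757.BP.Vau
import Pool.Agent.N791.U.Tr3

/-!
Project HP (helper545): a positive proportion of the pairs `|b|, |c| ≤ H`, lengths up to `H^(4-ε)`.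
-/

set_option autoImplicit false

namespace Run7.h545.HP

open Finset Filter Topology
open Pool.Agent.N792
open Run7.h757.BP.Fin (rpow_ge_log)
open Pool.Agent.N791.U (adm_shift eps_shift gcd_shift partialC_shift)

/-- the first moment -/
theorem fm' (a : ℤ) (ha : 0 < a) (Λ : ℝ) (hΛ : 1 ≤ Λ) : S_FM a Λ := by
  have ha0 : (0 : ℝ) < a := by exact_mod_cast ha
  have hs : 0 < 1 / √(a : ℝ) := by positivity
  apply fm a ha Λ hΛ
  exact Run7.h994.BPD.tri (Run7.h994.BPD.es4 Run7.h757.BP.Vau.vau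
    (Run7.h462.BPD.bil _ 2 le_rfl (by norm_num)
      (Run7.h462.BPD.tii _ hs 2 le_rfl (Run7.h462.BPD.spc 2 (by norm_num))))
    (Run7.h462.BPD.ti _ hs 2 le_rfl (by norm_num)))

open Classical in
/-- the family with `b² ≤ Λ C` -/
theorem family (a : ℤ) (ha : 0 < a) (Λ : ℝ) (hΛ : 1 ≤ Λ) (η : ℝ) (hη : 0 < η) (hη1 : η ≤ 1 / 2) :
    ∃ c : ℝ, 0 < c ∧ ∀ ε : ℝ, 0 < ε → ∃ N0 : ℕ, ∀ N : ℕ, N0 ≤ N → ∀ b : ℤ, ∀ C : ℕ, (b : ℝ) ^ 2 ≤ Λ * C →
      (N : ℝ) ^ (1 / 2 + ε) ≤ C → (C : ℝ) ≤ (N : ℝ) ^ (9 / 10 : ℝ) →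
      c * C ≤ (#((Icc 1 C).filter (fun c => GoodC a b η N c)) : ℝ) :=
  mid a ha Λ hΛ (fm' a ha Λ hΛ) (Run7.h973.HP.up a ha Λ hΛ) (Run7.h973.HP.sq a ha) (Run7.h973.HP.av a ha Λ hΛ) η hη hη1

/-- the sum of `1 / log |a m² + b m + c|` -/
noncomputable def lsum (a b c : ℤ) (u v : ℕ) : ℝ :=
  ∑ m ∈ (Ioc u v).filter (fun m : ℕ => 2 ≤ |a * (m : ℤ) ^ 2 + b * m + c|),
    1 / Real.log |(a : ℝ) * m ^ 2 + b * m + c|

/-- the number of the primes -/
def pcount (a b c : ℤ) (u v : ℕ) : ℕ :=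
  #((Ioc u v).filter (fun m : ℕ => (a * (m : ℤ) ^ 2 + b * m + c).toNat.Prime))

lemma lsum_nonneg (a b c : ℤ) (u v : ℕ) : 0 ≤ lsum a b c u v := by
  unfold lsum
  apply sum_nonneg
  intro m hm
  rw [mem_filter] at hm
  have h1 : (2 : ℝ) ≤ |(a : ℝ) * m ^ 2 + b * m + c| := by exact_mod_cast hm.2
  have := Real.log_nonneg (show (1 : ℝ) ≤ |(a : ℝ) * m ^ 2 + b * m + c| by linarith)
  positivity

/-- the sum of the logarithms is at most `(1 + θ) N / (2 log N)` if `b ≥ 0` and `-H ≤ c ≤ 0` -/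
lemma lsum_le (a : ℤ) (ha : 0 < a) (θ : ℝ) (hθ : 0 < θ) : ∃ N0 : ℕ, ∀ N : ℕ, N0 ≤ N → ∀ H : ℕ, H ^ 2 ≤ N →
    ∀ b c : ℤ, 0 ≤ b → -(H : ℤ) ≤ c → lsum a b c 0 N ≤ (1 + θ) * (N / (2 * Real.log N)) := by
  obtain ⟨δ, hδ⟩ : ∃ δ : ℝ, δ = min (1 / 4) (θ / 16) := ⟨_, rfl⟩
  have hδ0 : 0 < δ := by rw [hδ]; positivity
  have hδ1 : δ ≤ 1 / 4 := by rw [hδ]; exact min_le_left _ _
  have hδ2 : δ ≤ θ / 16 := by rw [hδ]; exact min_le_right _ _
  obtain ⟨M1, hM1⟩ := eventually_atTop.1 (rpow_ge_log δ hδ0 1 (8 / θ) (by positivity))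
  obtain ⟨M2, hM2⟩ := eventually_atTop.1 ((Real.tendsto_log_atTop.comp tendsto_natCast_atTop_atTop).eventually_ge_atTop
    (2 + 1 / δ))
  refine ⟨M1 + M2 + 16, fun N hN H hH b c hb hc => ?_⟩
  have g1 := hM1 N (by omega)
  have g2 := hM2 N (by omega)
  simp only [Function.comp] at g2
  rw [pow_one] at g1
  obtain ⟨L, hL⟩ : ∃ L : ℝ, L = Real.log N := ⟨_, rfl⟩
  rw [← hL] at g1 g2 ⊢
  have hNR : (16 : ℝ) ≤ N := by exact_mod_cast (by omega : 16 ≤ N)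
  have hN0 : (0 : ℝ) < N := by linarith
  have hδi : 0 < 1 / δ := by positivity
  have hL2 : 2 ≤ L := by linarith
  have hL0 : 0 < L := by linarith
  have hLδ : 1 ≤ δ * L := by
    have : 1 / δ ≤ L := by linarith
    rw [div_le_iff₀ hδ0] at this
    linarith
  obtain ⟨Y, hY⟩ : ∃ Y : ℝ, Y = (N : ℝ) ^ (1 - δ) := ⟨_, rfl⟩
  have hY0 : 0 < Y := by rw [hY]; positivity
  have hYN : Y * (N : ℝ) ^ δ = N := by
    rw [hY, ← Real.rpow_add hN0]
    norm_num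
  have hlogY : Real.log Y = (1 - δ) * L := by rw [hY, Real.log_rpow hN0, hL]
  have hY2 : 2 * (H : ℝ) ≤ Y ^ 2 := by
    have h1 : (N : ℝ) ≤ Y ^ 2 := by
      rw [hY, ← Real.rpow_natCast, ← Real.rpow_mul hN0.le]
      nth_rewrite 1 [← Real.rpow_one (N : ℝ)]
      apply Real.rpow_le_rpow_of_exponent_le (by linarith)
      push_cast
      linarith
    have h2 : (H : ℝ) ^ 2 ≤ N := by exact_mod_cast hH
    have h3 : 2 * (H : ℝ) ≤ N := by
      rcases Nat.lt_or_ge H 2 with h | h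
      · have : (H : ℝ) ≤ 1 := by exact_mod_cast (by omega : H ≤ 1)
        linarith
      · have : (2 : ℝ) ≤ H := by exact_mod_cast h
        nlinarith
    linarith
  -- the two bounds for a term
  have hterm : ∀ m ∈ (Ioc 0 N).filter (fun m : ℕ => 2 ≤ |a * (m : ℤ) ^ 2 + b * m + c|),
      1 / Real.log |(a : ℝ) * m ^ 2 + b * m + c| ≤ (if (m : ℝ) ≤ Y then 2 else 0) + 1 / (2 * (1 - 2 * δ) * L) := by
    intro m hm
    rw [mem_filter, mem_Ioc] at hm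
    have h1 : (2 : ℝ) ≤ |(a : ℝ) * m ^ 2 + b * m + c| := by exact_mod_cast hm.2
    have hpos : 0 < 1 / (2 * (1 - 2 * δ) * L) := by
      have : 0 < 1 - 2 * δ := by linarith
      positivity
    split_ifs with h
    · have h2 : Real.log 2 ≤ Real.log |(a : ℝ) * m ^ 2 + b * m + c| := Real.log_le_log (by norm_num) h1
      have h3 : 1 / 2 ≤ Real.log 2 := by linarith [Real.log_two_gt_d9]
      have h4 : 1 / Real.log |(a : ℝ) * m ^ 2 + b * m + c| ≤ 1 / (1 / 2) :=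
        one_div_le_one_div_of_le (by norm_num) (h3.trans h2)
      norm_num at h4 hpos ⊢
      linarith
    · push Not at h
      rw [zero_add]
      have hm0 : (0 : ℝ) < m := by linarith
      have h2 : (m : ℝ) ^ 2 / 2 ≤ (a : ℝ) * m ^ 2 + b * m + c := by
        have a1 : (1 : ℝ) ≤ a := by exact_mod_cast ha
        have b1 : (0 : ℝ) ≤ b := by exact_mod_cast hb
        have c1 : -(H : ℝ) ≤ c := by exact_mod_cast hc
        have m1 : Y ^ 2 ≤ (m : ℝ) ^ 2 := by gcongr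
        have m2 : (0 : ℝ) ≤ b * m := by positivity
        have m3 : (m : ℝ) ^ 2 ≤ a * (m : ℝ) ^ 2 := by nlinarith [sq_nonneg (m : ℝ)]
        linarith
      have h3 : (m : ℝ) ^ 2 / 2 ≤ |(a : ℝ) * m ^ 2 + b * m + c| := h2.trans (le_abs_self _)
      have h4 : 2 * (1 - 2 * δ) * L ≤ Real.log |(a : ℝ) * m ^ 2 + b * m + c| := by
        have h5 : Real.log (Y ^ 2 / 2) ≤ Real.log |(a : ℝ) * m ^ 2 + b * m + c| := by
          apply Real.log_le_log (by positivity)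
          refine le_trans ?_ h3
          gcongr
        have h6 : Real.log (Y ^ 2 / 2) = 2 * ((1 - δ) * L) - Real.log 2 := by
          rw [Real.log_div (by positivity) (by norm_num), Real.log_pow, hlogY]
          push_cast
          ring
        have h7 : Real.log 2 ≤ 1 := by linarith [Real.log_two_lt_d9]
        rw [h6] at h5
        nlinarith
      apply one_div_le_one_div_of_le _ h4
      have : 0 < 1 - 2 * δ := by linarith
      positivity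
  have hcount : ∑ m ∈ (Ioc 0 N).filter (fun m : ℕ => 2 ≤ |a * (m : ℤ) ^ 2 + b * m + c|),
      (if (m : ℝ) ≤ Y then (2 : ℝ) else 0) ≤ 2 * Y := by
    calc ∑ m ∈ (Ioc 0 N).filter (fun m : ℕ => 2 ≤ |a * (m : ℤ) ^ 2 + b * m + c|), (if (m : ℝ) ≤ Y then (2 : ℝ) else 0)
        ≤ ∑ m ∈ Ioc 0 N, (if (m : ℝ) ≤ Y then (2 : ℝ) else 0) := by
          apply sum_le_sum_of_subset_of_nonneg (filter_subset _ _)
          intro m _ _
          split_ifs <;> norm_num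
      _ = ∑ m ∈ (Ioc 0 N).filter (fun m : ℕ => (m : ℝ) ≤ Y), (2 : ℝ) := by rw [sum_filter]
      _ = 2 * #((Ioc 0 N).filter (fun m : ℕ => (m : ℝ) ≤ Y)) := by rw [sum_const, nsmul_eq_mul]; ring
      _ ≤ 2 * Y := by
          have h1 : (Ioc 0 N).filter (fun m : ℕ => (m : ℝ) ≤ Y) ⊆ Ioc 0 ⌊Y⌋₊ := by
            intro m hm
            rw [mem_filter, mem_Ioc] at hm
            rw [mem_Ioc]
            exact ⟨hm.1.1, Nat.le_floor hm.2⟩
          have h2 := card_le_card h1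
          rw [Nat.card_Ioc, Nat.sub_zero] at h2
          have h3 : (#((Ioc 0 N).filter (fun m : ℕ => (m : ℝ) ≤ Y)) : ℝ) ≤ ⌊Y⌋₊ := by exact_mod_cast h2
          have h4 := Nat.floor_le hY0.le
          linarith
  have hYsmall : 2 * Y ≤ θ / 2 * (N / (2 * L)) := by
    have h1 : 8 * L ≤ θ * (N : ℝ) ^ δ := by
      rw [div_mul_eq_mul_div, div_le_iff₀ hθ] at g1
      linarith
    rw [mul_div_assoc', le_div_iff₀ (by positivity)]
    calc 2 * Y * (2 * L) = (8 * L) * Y / 2 := by ring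
      _ ≤ (θ * (N : ℝ) ^ δ) * Y / 2 := by gcongr
      _ = θ / 2 * (Y * (N : ℝ) ^ δ) := by ring
      _ = θ / 2 * N := by rw [hYN]
  calc lsum a b c 0 N ≤ ∑ m ∈ (Ioc 0 N).filter (fun m : ℕ => 2 ≤ |a * (m : ℤ) ^ 2 + b * m + c|),
        ((if (m : ℝ) ≤ Y then (2 : ℝ) else 0) + 1 / (2 * (1 - 2 * δ) * L)) := sum_le_sum hterm
    _ = ∑ m ∈ (Ioc 0 N).filter (fun m : ℕ => 2 ≤ |a * (m : ℤ) ^ 2 + b * m + c|),
        (if (m : ℝ) ≤ Y then (2 : ℝ) else 0) +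
        #((Ioc 0 N).filter (fun m : ℕ => 2 ≤ |a * (m : ℤ) ^ 2 + b * m + c|)) * (1 / (2 * (1 - 2 * δ) * L)) := by
          rw [sum_add_distrib, sum_const, nsmul_eq_mul]
    _ ≤ 2 * Y + N * (1 / (2 * (1 - 2 * δ) * L)) := by
        apply add_le_add hcount
        have hpos : 0 < 1 / (2 * (1 - 2 * δ) * L) := by
          have : 0 < 1 - 2 * δ := by linarith
          positivity
        apply mul_le_mul_of_nonneg_right _ hpos.le
        have h1 := card_filter_le (Ioc 0 N) (fun m : ℕ => 2 ≤ |a * (m : ℤ) ^ 2 + b * m + c|)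
        rw [Nat.card_Ioc, Nat.sub_zero] at h1
        exact_mod_cast h1
    _ ≤ θ / 2 * (N / (2 * L)) + (1 + θ / 2) * (N / (2 * L)) := by
        apply add_le_add hYsmall
        have h1 : 0 < 1 - 2 * δ := by linarith
        have h2 : 1 / (1 - 2 * δ) ≤ 1 + θ / 2 := by
          rw [div_le_iff₀ h1]
          nlinarith
        calc N * (1 / (2 * (1 - 2 * δ) * L)) = 1 / (1 - 2 * δ) * (N / (2 * L)) := by field_simp
          _ ≤ (1 + θ / 2) * (N / (2 * L)) := by gcongr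
    _ = (1 + θ) * (N / (2 * L)) := by ring

/-- the conclusion for one pair -/
def GoodP (a : ℤ) (η : ℝ) (N : ℕ) (q : ℤ × ℤ) : Prop :=
  Admissible a q.1 q.2 ∧ ∃ S : ℝ, 0 < S ∧ Tendsto (fun y => partialC a q.1 q.2 y) atTop (𝓝 S) ∧
    (1 - η) * (eps a q.1 * S * gcdProd a q.1 * lsum a q.1 q.2 0 N) ≤ pcount a q.1 q.2 0 N

lemma eps_pos (a b : ℤ) : 0 < eps a b := by
  unfold eps
  split_ifs <;> norm_num

lemma gcdProd_pos (a b : ℤ) : 0 < gcdProd a b := by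
  unfold gcdProd
  apply prod_pos
  intro p hp
  rw [mem_filter] at hp
  have h1 : (2 : ℝ) < p := by exact_mod_cast hp.2
  apply div_pos <;> linarith

lemma GoodP.mono {a : ℤ} {η η' : ℝ} {N : ℕ} {q : ℤ × ℤ} (h : η' ≤ η) (hg : GoodP a η' N q) : GoodP a η N q := by
  obtain ⟨h0, S, h1, h2, h3⟩ := hg
  refine ⟨h0, S, h1, h2, le_trans ?_ h3⟩
  apply mul_le_mul_of_nonneg_right (by linarith)
  have e1 := eps_pos a q.1
  have e2 := gcdProd_pos a q.1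
  have e3 := lsum_nonneg a q.1 q.2 0 N
  positivity

/-- the pair of `c'` -/
def pr (a : ℤ) (t : ℕ) (c : ℕ) : ℤ × ℤ :=
  (2 * a * (Nat.sqrt ((a.toNat * t ^ 2 - c) / a.toNat) : ℕ),
    (c : ℤ) + a * ((Nat.sqrt ((a.toNat * t ^ 2 - c) / a.toNat) : ℕ) : ℤ) ^ 2 - a * (t : ℤ) ^ 2)

/-- the properties of the square root -/
lemma pr_prop (α t c : ℕ) (hα : 1 ≤ α) (hc1 : 1 ≤ c) (hc : c ≤ α * t ^ 2) :
    Nat.sqrt ((α * t ^ 2 - c) / α) < t ∧
    α * Nat.sqrt ((α * t ^ 2 - c) / α) ^ 2 + c ≤ α * t ^ 2 ∧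
    α * t ^ 2 < α * (Nat.sqrt ((α * t ^ 2 - c) / α) + 1) ^ 2 + c := by
  obtain ⟨m, hm⟩ : ∃ m, m = α * t ^ 2 - c := ⟨_, rfl⟩
  obtain ⟨k, hk⟩ : ∃ k, k = Nat.sqrt (m / α) := ⟨_, rfl⟩
  rw [← hm, ← hk]
  have h1 : k ^ 2 ≤ m / α := by
    rw [hk]
    exact Nat.sqrt_le' _
  have h2 : m / α < (k + 1) ^ 2 := by
    rw [hk]
    exact Nat.lt_succ_sqrt' _
  have h3 : α * k ^ 2 ≤ m := by
    have := (Nat.le_div_iff_mul_le (by omega : 0 < α)).1 h1
    linarith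
  have h4 : m < α * (k + 1) ^ 2 := by
    have := (Nat.div_lt_iff_lt_mul (by omega : 0 < α)).1 h2
    linarith
  refine ⟨?_, by omega, by omega⟩
  by_contra hcon
  push Not at hcon
  have h5 : α * t ^ 2 ≤ α * k ^ 2 := Nat.mul_le_mul_left _ (Nat.pow_le_pow_left hcon 2)
  omega

lemma pr_inj (a : ℤ) (ha : 0 < a) (t : ℕ) : Function.Injective (pr a t) := by
  intro c c' h
  unfold pr at h
  rw [Prod.mk.injEq] at h
  obtain ⟨h1, h2⟩ := h
  have h3 : ((Nat.sqrt ((a.toNat * t ^ 2 - c) / a.toNat) : ℕ) : ℤ) =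
      ((Nat.sqrt ((a.toNat * t ^ 2 - c') / a.toNat) : ℕ) : ℤ) :=
    mul_left_cancel₀ (show (2 * a : ℤ) ≠ 0 by positivity) h1
  rw [h3] at h2
  have : (c : ℤ) = c' := by linarith
  exact_mod_cast this

/-- from the family to the pair -/
lemma good_transfer (a : ℤ) (ha : 0 < a) (η θ : ℝ) (hη1 : η ≤ 1) (N N' t c : ℕ) (hN' : N' + t = N)
    (hN'2 : 2 ≤ N')
    (hc1 : 1 ≤ c) (hc : (c : ℤ) ≤ a * (t : ℤ) ^ 2) (hg : GoodC a (2 * a * t) (η / 2) N' c)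
    (hθ : (1 - η) * (1 + θ) ≤ (1 - η / 2) * (1 - θ)) (hθ1 : 0 ≤ θ) (ht : (t : ℝ) ≤ θ * N)
    (hl : lsum a (pr a t c).1 (pr a t c).2 0 N ≤ (1 + θ) * (N / (2 * Real.log N))) :
    GoodP a η N (pr a t c) := by
  obtain ⟨α, rfl⟩ : ∃ α : ℕ, a = (α : ℤ) := ⟨a.toNat, (Int.toNat_of_nonneg ha.le).symm⟩
  have hα : 1 ≤ α := by exact_mod_cast ha
  obtain ⟨k, hk⟩ : ∃ k, k = Nat.sqrt ((α * t ^ 2 - c) / α) := ⟨_, rfl⟩
  obtain ⟨p1, p2, p3⟩ := pr_prop α t c hα hc1 (by exact_mod_cast hc)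
  rw [← hk] at p1 p2 p3
  have hpr : pr (α : ℤ) t c = (2 * (α : ℤ) * k, (c : ℤ) + (α : ℤ) * (k : ℤ) ^ 2 - (α : ℤ) * (t : ℤ) ^ 2) := by
    unfold pr
    rw [Int.toNat_natCast, ← hk]
  rw [hpr] at hl ⊢
  obtain ⟨g0, S, g1, g2, g3⟩ := hg
  obtain ⟨s, hs⟩ : ∃ s : ℤ, s = (k : ℤ) - t := ⟨_, rfl⟩
  have hb : 2 * (α : ℤ) * k = 2 * (α : ℤ) * t + 2 * α * s := by rw [hs]; ring
  have hcc : (c : ℤ) + (α : ℤ) * (k : ℤ) ^ 2 - (α : ℤ) * (t : ℤ) ^ 2 = (c : ℤ) + 2 * (α : ℤ) * t * s + α * s ^ 2 := by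
    rw [hs]; ring
  unfold GoodP
  simp only
  refine ⟨?_, S, g1, ?_, ?_⟩
  · rw [hb, hcc]
    exact adm_shift s g0
  · rw [hb, hcc]
    simp only [partialC_shift]
    exact g2
  · have e1 : eps (α : ℤ) (2 * (α : ℤ) * k) = eps (α : ℤ) (2 * (α : ℤ) * t) := by rw [hb, eps_shift]
    have e2 : gcdProd (α : ℤ) (2 * (α : ℤ) * k) = gcdProd (α : ℤ) (2 * (α : ℤ) * t) := by rw [hb, gcd_shift]
    rw [e1, e2]
    obtain ⟨M, hM⟩ : ∃ M : ℝ, M = eps (α : ℤ) (2 * (α : ℤ) * t) * S * gcdProd (α : ℤ) (2 * (α : ℤ) * t) := ⟨_, rfl⟩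
    have hM0 : 0 < M := by
      have q1 := eps_pos (α : ℤ) (2 * (α : ℤ) * t)
      have q2 := gcdProd_pos (α : ℤ) (2 * (α : ℤ) * t)
      rw [hM]
      positivity
    rw [← hM] at g3 ⊢
    -- the number of the primes
    have hcnt : (PP (α : ℤ) (2 * (α : ℤ) * t) c N' : ℝ) ≤
        pcount (α : ℤ) (2 * (α : ℤ) * k) ((c : ℤ) + (α : ℤ) * (k : ℤ) ^ 2 - (α : ℤ) * (t : ℤ) ^ 2) 0 N := by
      have h1 : PP (α : ℤ) (2 * (α : ℤ) * t) c N' ≤
          pcount (α : ℤ) (2 * (α : ℤ) * k) ((c : ℤ) + (α : ℤ) * (k : ℤ) ^ 2 - (α : ℤ) * (t : ℤ) ^ 2) 0 N := by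
        unfold PP pcount
        apply card_le_card_of_injOn (fun n => n + (t - k))
        · intro n hn
          rw [Finset.mem_coe, mem_filter, mem_Icc] at hn
          rw [Finset.mem_coe, mem_filter, mem_Ioc]
          beta_reduce
          refine ⟨by omega, ?_⟩
          have h2 : ((n + (t - k) : ℕ) : ℤ) = (n : ℤ) + t - k := by
            have : ((t - k : ℕ) : ℤ) = (t : ℤ) - k := by
              rw [Nat.cast_sub p1.le]
            push_cast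
            linarith
          have h3 : (α : ℤ) * ((n + (t - k) : ℕ) : ℤ) ^ 2 + 2 * (α : ℤ) * k * ((n + (t - k) : ℕ) : ℤ) +
              ((c : ℤ) + (α : ℤ) * (k : ℤ) ^ 2 - (α : ℤ) * (t : ℤ) ^ 2) = fv (α : ℤ) (2 * (α : ℤ) * t) c n := by
            rw [h2]
            unfold fv
            ring
          rw [h3]
          exact hn.2
        · intro x _ y _ hxy
          simp only at hxy
          omega
      exact_mod_cast h1
    refine le_trans ?_ hcnt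
    refine le_trans ?_ g3
    have hN'R : (2 : ℝ) ≤ N' := by exact_mod_cast hN'2
    have hNN' : (N : ℝ) = N' + t := by exact_mod_cast hN'.symm
    have ht0 : (0 : ℝ) ≤ t := Nat.cast_nonneg _
    have hNR : (2 : ℝ) ≤ N := by linarith
    have hlogN' : 0 < Real.log N' := Real.log_pos (by linarith)
    have hlog : Real.log N' ≤ Real.log N := Real.log_le_log (by linarith) (by linarith)
    have h5 : (1 - θ) * (N / (2 * Real.log N)) ≤ N' / (2 * Real.log N') := by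
      have h6 : (1 - θ) * (N : ℝ) ≤ N' := by linarith
      calc (1 - θ) * ((N : ℝ) / (2 * Real.log N)) = ((1 - θ) * N) / (2 * Real.log N) := by ring
        _ ≤ N' / (2 * Real.log N) := by
            apply div_le_div_of_nonneg_right h6
            have : 0 < Real.log N := lt_of_lt_of_le hlogN' hlog
            positivity
        _ ≤ N' / (2 * Real.log N') := by
            apply div_le_div_of_nonneg_left (by linarith) (by positivity)
            linarith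
    have hη2 : 0 ≤ 1 - η := by linarith
    have hη3 : 0 ≤ 1 - η / 2 := by linarith
    have hX : 0 ≤ (N : ℝ) / (2 * Real.log N) := by
      have : 0 < Real.log N := lt_of_lt_of_le hlogN' hlog
      positivity
    calc (1 - η) * (M * lsum (α : ℤ) (2 * (α : ℤ) * k) ((c : ℤ) + (α : ℤ) * (k : ℤ) ^ 2 - (α : ℤ) * (t : ℤ) ^ 2) 0 N)
        ≤ (1 - η) * (M * ((1 + θ) * (N / (2 * Real.log N)))) := by gcongr
      _ = M * (((1 - η) * (1 + θ)) * (N / (2 * Real.log N))) := by ring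
      _ ≤ M * (((1 - η / 2) * (1 - θ)) * (N / (2 * Real.log N))) := by gcongr
      _ = M * ((1 - η / 2) * ((1 - θ) * (N / (2 * Real.log N)))) := by ring
      _ ≤ M * ((1 - η / 2) * (N' / (2 * Real.log N'))) := by gcongr
      _ = (1 - η / 2) * M * (N' / (2 * Real.log N')) := by ring

open Classical in
/-- **Theorem** -/
theorem pairs_small (a : ℤ) (ha : 0 < a) (η : ℝ) (hη : 0 < η) (hη1 : η ≤ 1 / 2) :
    ∃ κ : ℝ, 0 < κ ∧ ∀ ε : ℝ, 0 < ε → ∃ H0 : ℕ, ∀ H : ℕ, H0 ≤ H → ∀ N : ℕ, (H : ℝ) ^ (7 / 3 : ℝ) ≤ N →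
      (N : ℝ) ≤ (H : ℝ) ^ (4 - ε) →
      κ * (H : ℝ) ^ 2 ≤ (#((Icc (-(H : ℤ)) H ×ˢ Icc (-(H : ℤ)) H).filter (fun q => GoodP a η N q)) : ℝ) := by
  obtain ⟨α, rfl⟩ : ∃ α : ℕ, a = (α : ℤ) := ⟨a.toNat, (Int.toNat_of_nonneg ha.le).symm⟩
  have hα : 1 ≤ α := by exact_mod_cast ha
  have hαr : (1 : ℝ) ≤ α := by exact_mod_cast hα
  obtain ⟨κ, hκ, hfam⟩ := family (α : ℤ) ha (4 * α) (by linarith) (η / 2) (by positivity) (by linarith)
  obtain ⟨θ, hθ⟩ : ∃ θ : ℝ, θ = η / 8 := ⟨_, rfl⟩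
  have hθ0 : 0 < θ := by rw [hθ]; positivity
  obtain ⟨NL, hNL⟩ := lsum_le (α : ℤ) ha θ hθ0
  refine ⟨κ / (16 * α), by positivity, fun ε hε => ?_⟩
  obtain ⟨ε', hε'⟩ : ∃ ε' : ℝ, ε' = min ε 1 / 16 := ⟨_, rfl⟩
  have hε'0 : 0 < ε' := by
    rw [hε']
    have : 0 < min ε 1 := lt_min hε one_pos
    positivity
  have hε'1 : ε' ≤ ε / 16 := by
    rw [hε']
    have := min_le_left ε 1
    linarith
  obtain ⟨NF, hNF⟩ := hfam ε' hε'0
  have tend : ∀ x : ℝ, 0 < x → Tendsto (fun X : ℕ => (X : ℝ) ^ x) atTop atTop := fun x hx =>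
    (tendsto_rpow_atTop hx).comp tendsto_natCast_atTop_atTop
  obtain ⟨M1, hM1⟩ := eventually_atTop.1 ((tend (ε / 4) (by positivity)).eventually_ge_atTop (16 * (α : ℝ)))
  obtain ⟨M2, hM2⟩ := eventually_atTop.1 ((tend (1 / 10) (by norm_num)).eventually_ge_atTop (2 : ℝ))
  obtain ⟨M3, hM3⟩ := exists_nat_ge (1 / θ)
  refine ⟨M1 + M2 + M3 + 2 * NF + NL + 8 * α + 16, fun H hH N hN1 hN2 => ?_⟩
  have hHR : (16 : ℝ) ≤ H := by exact_mod_cast (by omega : 16 ≤ H)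
  have hH0 : (0 : ℝ) < H := by linarith
  have hHH : (H : ℝ) ^ 2 ≤ N := by
    refine le_trans ?_ hN1
    rw [← Real.rpow_natCast]
    apply Real.rpow_le_rpow_of_exponent_le (by linarith)
    norm_num
  have hHHn : H ^ 2 ≤ N := by exact_mod_cast hHH
  have hHN2 : 16 * H ≤ H ^ 2 := by nlinarith
  -- the parameters
  obtain ⟨t, ht⟩ : ∃ t : ℕ, t = H / (2 * α) - 1 := ⟨_, rfl⟩
  have hdiv1 : 4 ≤ H / (2 * α) := by
    rw [Nat.le_div_iff_mul_le (by omega)]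
    omega
  have hdiv2 : H / (2 * α) * (2 * α) ≤ H := Nat.div_mul_le_self H (2 * α)
  have hdiv3 : H < (H / (2 * α) + 1) * (2 * α) := by
    have := Nat.lt_div_mul_add (a := H) (b := 2 * α) (by omega)
    calc H < H / (2 * α) * (2 * α) + 2 * α := this
      _ = _ := by ring
  have ht1 : t + 1 = H / (2 * α) := by omega
  have ht3 : 3 ≤ t := by omega
  have htH : 2 * α * (t + 1) ≤ H := by
    rw [ht1]
    linarith
  have htlow : H ≤ 4 * α * t := by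
    have h1 : H < (t + 2) * (2 * α) := by
      have : t + 2 = H / (2 * α) + 1 := by omega
      rw [this]
      exact hdiv3
    have h2 : (t + 2) * (2 * α) ≤ 4 * α * t := by nlinarith
    omega
  have htHn : t ≤ H := by nlinarith
  obtain ⟨N', hN'⟩ : ∃ N' : ℕ, N' = N - t := ⟨_, rfl⟩
  have hNt : N' + t = N := by omega
  have hN'half : N ≤ 2 * N' := by omega
  have hNF' : NF ≤ N' := by omega
  obtain ⟨C, hC⟩ : ∃ C : ℕ, C = α * t ^ 2 := ⟨_, rfl⟩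
  have hCr : (C : ℝ) = α * (t : ℝ) ^ 2 := by rw [hC]; push_cast; ring
  have htlowr : (H : ℝ) ≤ 4 * α * t := by exact_mod_cast htlow
  have hClow : (H : ℝ) ^ 2 / (16 * α) ≤ C := by
    rw [hCr, div_le_iff₀ (by positivity)]
    calc (H : ℝ) ^ 2 ≤ (4 * α * t) ^ 2 := by gcongr
      _ = α * (t : ℝ) ^ 2 * (16 * α) := by ring
  have hCup : (C : ℝ) ≤ (H : ℝ) ^ 2 := by
    rw [hCr]
    have h1 : (2 * α * ((t : ℝ) + 1)) ≤ H := by exact_mod_cast htH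
    have h2 : (α : ℝ) * t ≤ H := by
      have h3 : (0 : ℝ) ≤ t := Nat.cast_nonneg _
      nlinarith
    have h3 : (t : ℝ) ≤ H := by exact_mod_cast htHn
    calc (α : ℝ) * (t : ℝ) ^ 2 = (α * t) * t := by ring
      _ ≤ H * H := by gcongr
      _ = _ := by ring
  -- the conditions
  have hb2 : (((2 * (α : ℤ) * t : ℤ)) : ℝ) ^ 2 ≤ 4 * α * C := by
    rw [hCr]
    push_cast
    apply le_of_eq
    ring
  have hc1 : (N' : ℝ) ^ (1 / 2 + ε') ≤ C := by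
    have hNH : (N' : ℝ) ≤ (H : ℝ) ^ (4 - ε) := by
      refine le_trans ?_ hN2
      exact_mod_cast (by omega : N' ≤ N)
    have hg := hM1 H (by omega)
    have hε4 : ε < 4 := by
      by_contra hcon
      push Not at hcon
      have h1 : (H : ℝ) ^ (4 - ε) ≤ 1 := Real.rpow_le_one_of_one_le_of_nonpos (by linarith) (by linarith)
      have h2 : (256 : ℝ) ≤ N := by nlinarith
      linarith
    calc (N' : ℝ) ^ (1 / 2 + ε') ≤ ((H : ℝ) ^ (4 - ε)) ^ (1 / 2 + ε') := by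
          apply Real.rpow_le_rpow (Nat.cast_nonneg _) hNH
          linarith
      _ = (H : ℝ) ^ ((4 - ε) * (1 / 2 + ε')) := by rw [← Real.rpow_mul hH0.le]
      _ ≤ (H : ℝ) ^ (2 - ε / 4) := by
          apply Real.rpow_le_rpow_of_exponent_le (by linarith)
          nlinarith
      _ = (H : ℝ) ^ 2 / (H : ℝ) ^ (ε / 4) := by
          rw [Real.rpow_sub hH0]
          norm_num
      _ ≤ (H : ℝ) ^ 2 / (16 * α) := by
          apply div_le_div_of_nonneg_left (by positivity) (by positivity) hg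
      _ ≤ C := hClow
  have hc2 : (C : ℝ) ≤ (N' : ℝ) ^ (9 / 10 : ℝ) := by
    have hg := hM2 H (by omega)
    have h1 : (H : ℝ) ^ (67 / 30 : ℝ) ≤ N' := by
      have h2 : (N : ℝ) ≤ 2 * N' := by exact_mod_cast hN'half
      have h3 : (H : ℝ) ^ (7 / 3 : ℝ) = (H : ℝ) ^ (67 / 30 : ℝ) * (H : ℝ) ^ (1 / 10 : ℝ) := by
        rw [← Real.rpow_add hH0]
        norm_num
      have h4 : (H : ℝ) ^ (67 / 30 : ℝ) * 2 ≤ (H : ℝ) ^ (67 / 30 : ℝ) * (H : ℝ) ^ (1 / 10 : ℝ) := by gcongr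
      linarith
    calc (C : ℝ) ≤ (H : ℝ) ^ 2 := hCup
      _ = (H : ℝ) ^ (2 : ℝ) := by norm_num
      _ ≤ (H : ℝ) ^ ((67 / 30 : ℝ) * (9 / 10)) := by
          apply Real.rpow_le_rpow_of_exponent_le (by linarith)
          norm_num
      _ = ((H : ℝ) ^ (67 / 30 : ℝ)) ^ (9 / 10 : ℝ) := by rw [Real.rpow_mul hH0.le]
      _ ≤ (N' : ℝ) ^ (9 / 10 : ℝ) := by
          apply Real.rpow_le_rpow (by positivity) h1 (by norm_num)
  have hmain := hNF N' hNF' (2 * (α : ℤ) * t) C hb2 hc1 hc2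
  -- the injection
  have htθ : (t : ℝ) ≤ θ * N := by
    have h1 : 1 / θ ≤ H := hM3.trans (by exact_mod_cast (by omega : M3 ≤ H))
    rw [div_le_iff₀ hθ0] at h1
    have h2 : (t : ℝ) ≤ H := by exact_mod_cast htHn
    calc (t : ℝ) ≤ H := h2
      _ = 1 * H := by ring
      _ ≤ (H * θ) * H := by gcongr
      _ = θ * (H : ℝ) ^ 2 := by ring
      _ ≤ θ * N := by gcongr
  have hmaps : ∀ c ∈ (Icc 1 C).filter (fun c => GoodC (α : ℤ) (2 * (α : ℤ) * t) (η / 2) N' c),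
      pr (α : ℤ) t c ∈ (Icc (-(H : ℤ)) H ×ˢ Icc (-(H : ℤ)) H).filter (fun q => GoodP (α : ℤ) η N q) := by
    intro c hc
    rw [mem_filter, mem_Icc] at hc
    obtain ⟨⟨hc1', hc2'⟩, hcg⟩ := hc
    rw [hC] at hc2'
    obtain ⟨k, hk⟩ : ∃ k, k = Nat.sqrt ((α * t ^ 2 - c) / α) := ⟨_, rfl⟩
    obtain ⟨p1, p2, p3⟩ := pr_prop α t c hα hc1' hc2'
    rw [← hk] at p1 p2 p3
    have hpr : pr (α : ℤ) t c = (2 * (α : ℤ) * k, (c : ℤ) + (α : ℤ) * (k : ℤ) ^ 2 - (α : ℤ) * (t : ℤ) ^ 2) := by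
      unfold pr
      rw [Int.toNat_natCast, ← hk]
    have p2z : (α : ℤ) * (k : ℤ) ^ 2 + c ≤ α * (t : ℤ) ^ 2 := by exact_mod_cast p2
    have p3z : (α : ℤ) * (t : ℤ) ^ 2 < α * ((k : ℤ) + 1) ^ 2 + c := by exact_mod_cast p3
    have htHz : 2 * (α : ℤ) * (t + 1) ≤ H := by exact_mod_cast htH
    have p1z : (k : ℤ) + 1 ≤ t := by exact_mod_cast p1
    have hα0 : (1 : ℤ) ≤ α := by exact_mod_cast hα
    have hk0 : (0 : ℤ) ≤ k := by positivity
    have hkt : (α : ℤ) * (2 * k + 1) ≤ H := by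
      have h1 : (α : ℤ) * (2 * k + 1) ≤ α * (2 * (t + 1)) := by
        apply mul_le_mul_of_nonneg_left _ (by positivity)
        linarith
      linarith
    have hb0 : 0 ≤ 2 * (α : ℤ) * k := by positivity
    have hbH : 2 * (α : ℤ) * k ≤ H := by
      have h1 : 2 * (α : ℤ) * k ≤ 2 * α * (t + 1) := by
        apply mul_le_mul_of_nonneg_left _ (by positivity)
        linarith
      linarith
    have hclow : -(H : ℤ) ≤ (c : ℤ) + (α : ℤ) * (k : ℤ) ^ 2 - (α : ℤ) * (t : ℤ) ^ 2 := by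
      have h1 : (α : ℤ) * ((k : ℤ) + 1) ^ 2 = α * (k : ℤ) ^ 2 + α * (2 * k + 1) := by ring
      linarith
    have hHz : (0 : ℤ) ≤ H := by positivity
    rw [mem_filter, mem_product]
    refine ⟨?_, ?_⟩
    · rw [hpr, mem_Icc, mem_Icc]
      simp only
      refine ⟨⟨by linarith, hbH⟩, ⟨hclow, by linarith⟩⟩
    · refine good_transfer (α : ℤ) ha η θ (by linarith) N N' t c hNt (by omega) hc1' (by exact_mod_cast hc2') hcg
        (by rw [hθ]; nlinarith) hθ0.le htθ ?_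
      rw [hpr]
      simp only
      refine hNL N ?_ H hHHn _ _ hb0 hclow
      have : NL ≤ H := by omega
      calc NL ≤ H := this
        _ ≤ H ^ 2 := by nlinarith
        _ ≤ N := hHHn
  have hcard : #((Icc 1 C).filter (fun c => GoodC (α : ℤ) (2 * (α : ℤ) * t) (η / 2) N' c)) ≤
      #((Icc (-(H : ℤ)) H ×ˢ Icc (-(H : ℤ)) H).filter (fun q => GoodP (α : ℤ) η N q)) :=
    card_le_card_of_injOn (pr (α : ℤ) t) hmaps (fun x _ y _ h => pr_inj (α : ℤ) ha t h)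
  have hcardr : (#((Icc 1 C).filter (fun c => GoodC (α : ℤ) (2 * (α : ℤ) * t) (η / 2) N' c)) : ℝ) ≤
      (#((Icc (-(H : ℤ)) H ×ˢ Icc (-(H : ℤ)) H).filter (fun q => GoodP (α : ℤ) η N q)) : ℝ) := by exact_mod_cast hcard
  calc κ / (16 * α) * (H : ℝ) ^ 2 = κ * ((H : ℝ) ^ 2 / (16 * α)) := by ring
    _ ≤ κ * C := by gcongr
    _ ≤ _ := hmain
    _ ≤ _ := hcardr

open Classical in
/-- **Theorem** -/
theorem pairs (a : ℤ) (ha : 0 < a) (η : ℝ) (hη : 0 < η) :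
    ∃ κ : ℝ, 0 < κ ∧ ∀ ε : ℝ, 0 < ε → ∃ H0 : ℕ, ∀ H : ℕ, H0 ≤ H → ∀ N : ℕ, (H : ℝ) ^ (7 / 3 : ℝ) ≤ N →
      (N : ℝ) ≤ (H : ℝ) ^ (4 - ε) →
      κ * (H : ℝ) ^ 2 ≤ (#((Icc (-(H : ℤ)) H ×ˢ Icc (-(H : ℤ)) H).filter (fun q => GoodP a η N q)) : ℝ) := by
  obtain ⟨κ, hκ, h1⟩ := pairs_small a ha (min η (1 / 2)) (lt_min hη (by norm_num)) (min_le_right _ _)
  refine ⟨κ, hκ, fun ε hε => ?_⟩
  obtain ⟨H0, h2⟩ := h1 ε hε
  refine ⟨H0, fun H hH N hN1 hN2 => (h2 H hH N hN1 hN2).trans ?_⟩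
  have : #((Icc (-(H : ℤ)) H ×ˢ Icc (-(H : ℤ)) H).filter (fun q => GoodP a (min η (1 / 2)) N q)) ≤
      #((Icc (-(H : ℤ)) H ×ˢ Icc (-(H : ℤ)) H).filter (fun q => GoodP a η N q)) := by
    apply card_le_card
    intro q hq
    rw [mem_filter] at hq ⊢
    exact ⟨hq.1, hq.2.mono (min_le_left _ _)⟩
  exact_mod_cast this

end Run7.h545.HP
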